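import Mathlib
import Pool.Agent.TSH.TE

set_option autoImplicit false

/-!
# TSX / Core: `p_q - q + h` prime for `q` in an arbitrary set of `q ≤ n / m`, `h` in a short window
-/

namespace Pool.Agent.TSX

open Finset Filter
open Pool.Agent.TSH
open Pool.Agent.Helper20.TwinIndex (pr pr_prime pr_strictMono pr_mono pi_pr lt_pr)

/-- `p_q - q` -/
noncomputable def pq (q : ℕ) : ℕ := Nat.nth Nat.Prime (q - 1) - q

theorem nth_step {j : ℕ} (hj : 1 ≤ j) : Nat.nth Nat.Prime j + 2 ≤ Nat.nth Nat.Prime (j + 1) := by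
  have h1 : Nat.nth Nat.Prime j < Nat.nth Nat.Prime (j + 1) :=
    Nat.nth_strictMono Nat.infinite_setOfPred_prime (Nat.lt_succ_self j)
  have h2 := Nat.add_two_le_nth_prime j
  have h3 : (Nat.nth Nat.Prime j).Prime := Nat.prime_nth_prime _
  have h4 : (Nat.nth Nat.Prime (j + 1)).Prime := Nat.prime_nth_prime _
  rcases h3.eq_two_or_odd with h5 | h5
  · omega
  · rcases h4.eq_two_or_odd with h6 | h6 <;> omega

theorem nth_add {j : ℕ} (hj : 1 ≤ j) (i : ℕ) :
    Nat.nth Nat.Prime j + 2 * i ≤ Nat.nth Nat.Prime (j + i) := by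
  induction i with
  | zero => simp
  | succ i ih =>
    have h := nth_step (j := j + i) (by omega)
    have e : j + (i + 1) = j + i + 1 := by omega
    rw [e]
    omega

theorem pq_lt {a b : ℕ} (ha : 2 ≤ a) (h : a < b) : pq a < pq b := by
  have h1 := nth_add (j := a - 1) (by omega) (b - a)
  have e : a - 1 + (b - a) = b - 1 := by omega
  rw [e] at h1
  have h2 := Nat.add_two_le_nth_prime (a - 1)
  unfold pq
  omega

theorem pq_injOn {K : Finset ℕ} {X : ℕ} (hK : ∀ q ∈ K, 2 ≤ q ∧ q ≤ X) : Set.InjOn pq K := by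
  intro a ha b hb h
  rcases lt_trichotomy a b with h1 | h1 | h1
  · exact absurd h (pq_lt (hK a ha).1 h1).ne
  · exact h1
  · exact absurd h.symm (pq_lt (hK b hb).1 h1).ne

theorem pq_le {X q : ℕ} (hX : 400 ≤ X) (hq : q ≤ X) :
    (pq q : ℝ) ≤ 3600 * (X * Real.log X ^ 2) := by
  have h1 := (pp_bd (m := X) (n := X) hX (by omega) le_rfl).2
  refine le_trans ?_ h1
  have h2 : pr q ≤ pr X := pr_mono hq
  have h3 : X ≤ pr X := (lt_pr (by omega)).le
  have h4 : pr X ≤ pr (pr X) := pr_mono h3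
  have h5 : pq q ≤ pr q := Nat.sub_le _ _
  exact_mod_cast (h5.trans h2).trans h4

open Classical in
/-- The tool: shifts `h` in a short window and `q` in an arbitrary set of `q ≤ n / m`. -/
theorem core (hGap : Pool.Agent.SI.St_Gap) (ε : ℝ) (hε : 0 < ε) (hε1 : ε < 1) (B : ℕ) (c₀ : ℝ)
    (hc₀ : 0 < c₀) :
    ∃ c : ℝ, 0 < c ∧ ∃ n₀ : ℕ, ∀ n : ℕ, n₀ ≤ n → ∀ m : ℕ, 1 ≤ m → (m : ℝ) ≤ (n : ℝ) ^ (1 - ε) →
      ∀ K : Finset ℕ, (∀ q ∈ K, 2 ≤ q ∧ q ≤ n / m) →
      c₀ * n / Real.log n ^ B ≤ m * K.card → ∀ M H : ℕ,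
      ((n / m : ℕ) : ℝ) ^ (1 / 4 + ε) ≤ H → (M : ℝ) + H ≤ ((n / m : ℕ) : ℝ) ^ (1 - ε) →
      c * H / Real.log (Real.log (Real.log ((n / m : ℕ) : ℝ))) ≤
        (((Ioc M (M + H)).filter (fun h => c * ((n / m : ℕ) : ℝ) / Real.log n ^ (B + 1) ≤
          ((K.filter (fun q => (Nat.nth Nat.Prime (q - 1) - q + h).Prime)).card : ℝ))).card : ℝ) := by
  obtain ⟨c₁, hc₁, h1⟩ := shift_seq hGap ε hε (B + 1)
  obtain ⟨X₁, hX₁⟩ := eventually_atTop.1 h1
  have hlogT : Tendsto (fun X : ℕ => Real.log X) atTop atTop :=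
    Real.tendsto_log_atTop.comp tendsto_natCast_atTop_atTop
  obtain ⟨X₂, hX₂⟩ := eventually_atTop.1
    ((hlogT.eventually_ge_atTop ((2 / ε) ^ B / c₀)).and
      ((hlogT.eventually_ge_atTop (1 : ℝ)).and (tendsto_L3.eventually_ge_atTop 1)))
  obtain ⟨c, hc⟩ : ∃ c : ℝ, c = min c₁ (c₁ * c₀) := ⟨_, rfl⟩
  have hc0 : 0 < c := by rw [hc]; positivity
  have hca : c ≤ c₁ := by rw [hc]; exact min_le_left _ _
  have hcb : c ≤ c₁ * c₀ := by rw [hc]; exact min_le_right _ _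
  -- `n ^ (ε / 2)` is large
  have hT1 : Tendsto (fun n : ℕ => (n : ℝ) ^ (ε / 2)) atTop atTop :=
    (tendsto_rpow_atTop (by linarith)).comp tendsto_natCast_atTop_atTop
  obtain ⟨n₀, hn₀⟩ := eventually_atTop.1
    ((hT1.eventually_ge_atTop (max (max (X₁ : ℝ) X₂) 400 + 2)).and (eventually_ge_atTop 3))
  refine ⟨c, hc0, n₀, fun n hn m hm hmn K hK hKc M H hH hMH => ?_⟩
  obtain ⟨hbig, hn3⟩ := hn₀ n hn
  have hn3' : (3 : ℝ) ≤ n := by exact_mod_cast hn3
  have hn0 : (0 : ℝ) < n := by linarith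
  have hm0 : (0 : ℝ) < m := by exact_mod_cast hm
  obtain ⟨X, hX⟩ : ∃ X : ℕ, X = n / m := ⟨_, rfl⟩
  rw [← hX] at hK hH hMH ⊢
  -- lower bound for `X`
  have hq1 : (n : ℝ) / m < X + 1 := by
    rw [div_lt_iff₀ hm0, hX]
    have h2 := Nat.lt_div_mul_add (a := n) (b := m) hm
    have h3 : (n : ℝ) < ((n / m * m + m : ℕ) : ℝ) := by exact_mod_cast h2
    push_cast at h3
    linarith
  have hq2 : (n : ℝ) ^ ε ≤ n / m := by
    rw [le_div_iff₀ hm0]
    calc (n : ℝ) ^ ε * m ≤ (n : ℝ) ^ ε * (n : ℝ) ^ (1 - ε) :=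
          mul_le_mul_of_nonneg_left hmn (by positivity)
      _ = n := by
          rw [← Real.rpow_add hn0]
          have : (ε + (1 - ε) : ℝ) = 1 := by ring
          rw [this, Real.rpow_one]
  obtain ⟨z, hz⟩ : ∃ z : ℝ, z = (n : ℝ) ^ (ε / 2) := ⟨_, rfl⟩
  have hzz : (n : ℝ) ^ ε = z * z := by
    rw [hz, ← Real.rpow_add hn0]
    congr 1
    ring
  rw [← hz] at hbig
  have hm1 : (X₁ : ℝ) ≤ max (max (X₁ : ℝ) X₂) 400 := (le_max_left _ _).trans (le_max_left _ _)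
  have hm2 : (X₂ : ℝ) ≤ max (max (X₁ : ℝ) X₂) 400 := (le_max_right _ _).trans (le_max_left _ _)
  have hm3 : (400 : ℝ) ≤ max (max (X₁ : ℝ) X₂) 400 := le_max_right _ _
  have hzX : z ≤ X := by nlinarith
  have hX1 : X₁ ≤ X := by
    have : (X₁ : ℝ) ≤ X := by linarith
    exact_mod_cast this
  have hX2 : X₂ ≤ X := by
    have : (X₂ : ℝ) ≤ X := by linarith
    exact_mod_cast this
  have hX4 : 400 ≤ X := by
    have : (400 : ℝ) ≤ X := by linarith
    exact_mod_cast this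
  obtain ⟨hlA, hl1, hL3⟩ := hX₂ X hX2
  have hL3' : 1 ≤ Real.log (Real.log (Real.log (X : ℝ))) := hL3
  have hX0 : (0 : ℝ) < X := by linarith
  have hXn : (X : ℝ) ≤ n := by
    rw [hX]
    exact_mod_cast Nat.div_le_self n m
  obtain ⟨L, hL⟩ : ∃ L : ℝ, L = Real.log n := ⟨_, rfl⟩
  obtain ⟨l, hl⟩ : ∃ l : ℝ, l = Real.log X := ⟨_, rfl⟩
  have hlL : l ≤ L := by rw [hl, hL]; exact Real.log_le_log hX0 hXn
  have hLl : L ≤ 2 / ε * l := by
    have e1 : ε / 2 * L ≤ l := by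
      rw [hL, hl, ← Real.log_rpow hn0, ← hz]
      exact Real.log_le_log (by linarith) hzX
    rw [div_mul_eq_mul_div, le_div_iff₀ hε]
    linarith
  rw [← hl] at hlA hl1
  rw [← hL] at hKc ⊢
  have hl0 : 0 < l := by linarith
  have hL0 : 0 < L := by linarith
  have hmX : (m : ℝ) * X ≤ n := by
    rw [hX]
    exact_mod_cast Nat.mul_div_le n m
  -- the set is not too thin
  have hK2 : c₀ * X / L ^ B ≤ K.card := by
    have e1 : (m : ℝ) * (c₀ * X / L ^ B) ≤ m * K.card := by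
      refine le_trans ?_ hKc
      rw [← mul_div_assoc]
      apply div_le_div_of_nonneg_right _ (by positivity)
      nlinarith
    exact le_of_mul_le_mul_left e1 hm0
  have hK3 : (X : ℝ) / Real.log X ^ (B + 1) ≤ K.card := by
    refine le_trans ?_ hK2
    rw [← hl, div_le_div_iff₀ (by positivity) (by positivity)]
    have e1 : L ^ B ≤ (2 / ε) ^ B * l ^ B := by
      rw [← mul_pow]
      exact pow_le_pow_left₀ hL0.le hLl _
    have e2 : (2 / ε) ^ B ≤ c₀ * l := by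
      rw [div_le_iff₀ hc₀] at hlA
      linarith
    calc (X : ℝ) * L ^ B ≤ X * ((2 / ε) ^ B * l ^ B) := mul_le_mul_of_nonneg_left e1 hX0.le
      _ ≤ X * (c₀ * l * l ^ B) := by
          apply mul_le_mul_of_nonneg_left _ hX0.le
          exact mul_le_mul_of_nonneg_right e2 (by positivity)
      _ = c₀ * X * l ^ (B + 1) := by ring
  have h2 := hX₁ X hX1 pq K (pq_injOn hK) (fun q hq => pq_le hX4 (hK q hq).2) hK3 M H hH hMH
  have hH0 : (0 : ℝ) ≤ H := Nat.cast_nonneg _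
  have h3 : c * H / Real.log (Real.log (Real.log (X : ℝ))) ≤
      c₁ * H / Real.log (Real.log (Real.log (X : ℝ))) := by
    apply div_le_div_of_nonneg_right _ (by linarith)
    exact mul_le_mul_of_nonneg_right hca hH0
  refine h3.trans (h2.trans ?_)
  norm_cast
  apply Finset.card_le_card
  intro h hh
  obtain ⟨h4, h5⟩ := mem_filter.1 hh
  rw [mem_filter]
  refine ⟨h4, ?_⟩
  refine le_trans ?_ h5
  rw [← hl]
  calc c * X / L ^ (B + 1) ≤ c₁ * c₀ * X / L ^ (B + 1) := by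
        apply div_le_div_of_nonneg_right _ (by positivity)
        exact mul_le_mul_of_nonneg_right hcb hX0.le
    _ = c₁ * (c₀ * X / L ^ B) / L := by
        rw [pow_succ]
        field_simp
    _ ≤ c₁ * (c₀ * X / L ^ B) / l := by
        apply div_le_div_of_nonneg_left (by positivity) hl0 hlL
    _ ≤ c₁ * K.card / l := by
        apply div_le_div_of_nonneg_right _ hl0.le
        exact mul_le_mul_of_nonneg_left hK2 hc₁.le

end Pool.Agent.TSX
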