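import Mathlib
import Pool.Agent.TSX.Core

set_option autoImplicit false

/-!
# TSX / Nest: two kinds of shifts, one after the other
-/

namespace Pool.Agent.TSX

open Finset Filter
open Pool.Agent.TSH (L3)

open Classical in
/-- a tool: for every not too thin set `K` of `q ≤ X` and every window, many shifts `h` are such that
`R h q` holds for the expected proportion of the `q ∈ K` -/
def Tool (R : ℕ → ℕ → Prop) (Wd : ℕ → ℕ → ℕ → Prop) : Prop := ∀ C : ℕ, ∃ c : ℝ, 0 < c ∧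
  ∀ᶠ X : ℕ in atTop, ∀ K : Finset ℕ, (∀ q ∈ K, 2 ≤ q ∧ q ≤ X) →
    (X : ℝ) / Real.log X ^ C ≤ K.card → ∀ M H : ℕ, Wd X M H →
    c * H / Real.log (Real.log (Real.log X)) ≤
      (((Ioc M (M + H)).filter (fun h => c * K.card / Real.log X ≤
        ((K.filter (fun q => R h q)).card : ℝ))).card : ℝ)

open Classical in
theorem step {R : ℕ → ℕ → Prop} {Wd : ℕ → ℕ → ℕ → Prop} (hT : Tool R Wd) (ε : ℝ) (_hε : 0 < ε)
    (B : ℕ) (c₀ : ℝ) (hc₀ : 0 < c₀) : ∃ c : ℝ, 0 < c ∧ ∃ X₀ : ℕ, ∀ X : ℕ, X₀ ≤ X → ∀ L : ℝ,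
      Real.log X ≤ L → L ≤ 2 / ε * Real.log X → ∀ K : Finset ℕ, (∀ q ∈ K, 2 ≤ q ∧ q ≤ X) →
      c₀ * X / L ^ B ≤ K.card → ∀ M H : ℕ, Wd X M H →
      c * H / Real.log (Real.log (Real.log (X : ℝ))) ≤
        (((Ioc M (M + H)).filter (fun h => c * (X : ℝ) / L ^ (B + 1) ≤
          ((K.filter (fun q => R h q)).card : ℝ))).card : ℝ) := by
  obtain ⟨c₁, hc₁, h1⟩ := hT (B + 1)
  obtain ⟨X₁, hX₁⟩ := eventually_atTop.1 h1
  have hlogT : Tendsto (fun X : ℕ => Real.log X) atTop atTop :=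
    Real.tendsto_log_atTop.comp tendsto_natCast_atTop_atTop
  obtain ⟨X₂, hX₂⟩ := eventually_atTop.1
    ((hlogT.eventually_ge_atTop ((2 / ε) ^ B / c₀)).and
      ((hlogT.eventually_ge_atTop (1 : ℝ)).and
        ((Pool.Agent.TSH.tendsto_L3.eventually_ge_atTop 1).and (eventually_ge_atTop 3))))
  obtain ⟨c, hc⟩ : ∃ c : ℝ, c = min c₁ (c₁ * c₀) := ⟨_, rfl⟩
  have hc0 : 0 < c := by rw [hc]; positivity
  have hca : c ≤ c₁ := by rw [hc]; exact min_le_left _ _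
  have hcb : c ≤ c₁ * c₀ := by rw [hc]; exact min_le_right _ _
  refine ⟨c, hc0, max X₁ X₂, fun X hX L hL1 hL2 K hK hKc M H hW => ?_⟩
  have hX1 : X₁ ≤ X := (le_max_left _ _).trans hX
  obtain ⟨hlA, hl1, hL3, hX3⟩ := hX₂ X ((le_max_right _ _).trans hX)
  have hL3' : 1 ≤ Real.log (Real.log (Real.log (X : ℝ))) := hL3
  have hX3' : (3 : ℝ) ≤ X := by exact_mod_cast hX3
  have hX0 : (0 : ℝ) < X := by linarith
  obtain ⟨l, hl⟩ : ∃ l : ℝ, l = Real.log X := ⟨_, rfl⟩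
  rw [← hl] at hlA hl1 hL1 hL2
  have hl0 : 0 < l := by linarith
  have hL0 : 0 < L := by linarith
  have hK3 : (X : ℝ) / Real.log X ^ (B + 1) ≤ K.card := by
    refine le_trans ?_ hKc
    rw [← hl, div_le_div_iff₀ (by positivity) (by positivity)]
    have e1 : L ^ B ≤ (2 / ε) ^ B * l ^ B := by
      rw [← mul_pow]
      exact pow_le_pow_left₀ hL0.le hL2 _
    have e2 : (2 / ε) ^ B ≤ c₀ * l := by
      rw [div_le_iff₀ hc₀] at hlA
      linarith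
    calc (X : ℝ) * L ^ B ≤ X * ((2 / ε) ^ B * l ^ B) := mul_le_mul_of_nonneg_left e1 hX0.le
      _ ≤ X * (c₀ * l * l ^ B) := by
          apply mul_le_mul_of_nonneg_left _ hX0.le
          exact mul_le_mul_of_nonneg_right e2 (by positivity)
      _ = c₀ * X * l ^ (B + 1) := by ring
  have h2 := hX₁ X hX1 K hK hK3 M H hW
  have hH0 : (0 : ℝ) ≤ H := Nat.cast_nonneg _
  have h3 : c * H / Real.log (Real.log (Real.log (X : ℝ))) ≤
      c₁ * H / Real.log (Real.log (Real.log (X : ℝ))) := by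
    apply div_le_div_of_nonneg_right _ (by linarith)
    exact mul_le_mul_of_nonneg_right hca hH0
  refine h3.trans (h2.trans ?_)
  norm_cast
  apply Finset.card_le_card
  intro h hh
  obtain ⟨h4, h5⟩ := mem_filter.1 hh
  rw [mem_filter]
  refine ⟨h4, ?_⟩
  refine le_trans ?_ h5
  rw [← hl]
  calc c * X / L ^ (B + 1) ≤ c₁ * c₀ * X / L ^ (B + 1) := by
        apply div_le_div_of_nonneg_right _ (by positivity)
        exact mul_le_mul_of_nonneg_right hcb hX0.le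
    _ = c₁ * (c₀ * X / L ^ B) / L := by
        rw [pow_succ]
        field_simp
    _ ≤ c₁ * (c₀ * X / L ^ B) / l := by
        apply div_le_div_of_nonneg_left (by positivity) hl0 hL1
    _ ≤ c₁ * K.card / l := by
        apply div_le_div_of_nonneg_right _ hl0.le
        exact mul_le_mul_of_nonneg_left hKc hc₁.le

/-- the scale `X = n / m` -/
theorem scale (ε : ℝ) (hε : 0 < ε) (X₀ : ℕ) : ∃ n₀ : ℕ, ∀ n : ℕ, n₀ ≤ n → ∀ m : ℕ, 1 ≤ m →
    (m : ℝ) ≤ (n : ℝ) ^ (1 - ε) → X₀ ≤ n / m ∧ 3 ≤ n / m ∧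
      Real.log ((n / m : ℕ) : ℝ) ≤ Real.log n ∧
      Real.log n ≤ 2 / ε * Real.log ((n / m : ℕ) : ℝ) := by
  have hT1 : Tendsto (fun n : ℕ => (n : ℝ) ^ (ε / 2)) atTop atTop :=
    (tendsto_rpow_atTop (by linarith)).comp tendsto_natCast_atTop_atTop
  obtain ⟨n₀, hn₀⟩ := eventually_atTop.1
    ((hT1.eventually_ge_atTop (max (X₀ : ℝ) 3 + 2)).and (eventually_ge_atTop 3))
  refine ⟨n₀, fun n hn m hm hmn => ?_⟩
  obtain ⟨hbig, hn3⟩ := hn₀ n hn
  have hn3' : (3 : ℝ) ≤ n := by exact_mod_cast hn3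
  have hn0 : (0 : ℝ) < n := by linarith
  have hm0 : (0 : ℝ) < m := by exact_mod_cast hm
  obtain ⟨X, hX⟩ : ∃ X : ℕ, X = n / m := ⟨_, rfl⟩
  rw [← hX]
  have hq1 : (n : ℝ) / m < X + 1 := by
    rw [div_lt_iff₀ hm0, hX]
    have h2 := Nat.lt_div_mul_add (a := n) (b := m) hm
    have h3 : (n : ℝ) < ((n / m * m + m : ℕ) : ℝ) := by exact_mod_cast h2
    push_cast at h3
    linarith
  have hq2 : (n : ℝ) ^ ε ≤ n / m := by
    rw [le_div_iff₀ hm0]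
    calc (n : ℝ) ^ ε * m ≤ (n : ℝ) ^ ε * (n : ℝ) ^ (1 - ε) :=
          mul_le_mul_of_nonneg_left hmn (by positivity)
      _ = n := by
          rw [← Real.rpow_add hn0]
          have : (ε + (1 - ε) : ℝ) = 1 := by ring
          rw [this, Real.rpow_one]
  obtain ⟨z, hz⟩ : ∃ z : ℝ, z = (n : ℝ) ^ (ε / 2) := ⟨_, rfl⟩
  have hzz : (n : ℝ) ^ ε = z * z := by
    rw [hz, ← Real.rpow_add hn0]
    congr 1
    ring
  rw [← hz] at hbig
  have hm1 : (X₀ : ℝ) ≤ max (X₀ : ℝ) 3 := le_max_left _ _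
  have hm2 : (3 : ℝ) ≤ max (X₀ : ℝ) 3 := le_max_right _ _
  have hzX : z ≤ X := by nlinarith
  have hX1 : X₀ ≤ X := by
    have : (X₀ : ℝ) ≤ X := by linarith
    exact_mod_cast this
  have hX2 : 3 ≤ X := by
    have : (3 : ℝ) ≤ X := by linarith
    exact_mod_cast this
  have hX0 : (0 : ℝ) < X := by linarith
  have hXn : (X : ℝ) ≤ n := by
    rw [hX]
    exact_mod_cast Nat.div_le_self n m
  refine ⟨hX1, hX2, Real.log_le_log hX0 hXn, ?_⟩
  have e1 : ε / 2 * Real.log n ≤ Real.log X := by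
    rw [← Real.log_rpow hn0, ← hz]
    exact Real.log_le_log (by linarith) hzX
  rw [div_mul_eq_mul_div, le_div_iff₀ hε]
  linarith

open Classical in
/-- **Nesting.** -/
theorem nest {R₁ R₂ : ℕ → ℕ → Prop} {W₁ W₂ : ℕ → ℕ → ℕ → Prop} (h1 : Tool R₁ W₁)
    (h2 : Tool R₂ W₂) (ε : ℝ) (hε : 0 < ε) (B : ℕ) (c₀ : ℝ) (hc₀ : 0 < c₀) :
    ∃ c : ℝ, 0 < c ∧ ∃ n₀ : ℕ, ∀ n : ℕ, n₀ ≤ n → ∀ m : ℕ, 1 ≤ m → (m : ℝ) ≤ (n : ℝ) ^ (1 - ε) →
      ∀ K : Finset ℕ, (∀ q ∈ K, 2 ≤ q ∧ q ≤ n / m) →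
      c₀ * n / Real.log n ^ B ≤ m * K.card → ∀ M₁ H₁ M₂ H₂ : ℕ,
      W₁ (n / m) M₁ H₁ → W₂ (n / m) M₂ H₂ →
      c * H₁ / Real.log (Real.log (Real.log ((n / m : ℕ) : ℝ))) ≤
        (((Ioc M₁ (M₁ + H₁)).filter (fun h =>
          c * H₂ / Real.log (Real.log (Real.log ((n / m : ℕ) : ℝ))) ≤
          (((Ioc M₂ (M₂ + H₂)).filter (fun k => c * ((n / m : ℕ) : ℝ) / Real.log n ^ (B + 2) ≤
            ((K.filter (fun q => R₁ h q ∧ R₂ k q)).card : ℝ))).card : ℝ))).card : ℝ) := by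
  obtain ⟨c₁, hc₁, X₁, hX₁⟩ := step h1 ε hε B c₀ hc₀
  obtain ⟨c₂, hc₂, X₂, hX₂⟩ := step h2 ε hε (B + 1) c₁ hc₁
  obtain ⟨n₀, hn₀⟩ := scale ε hε (max X₁ X₂)
  have hlogT : Tendsto (fun X : ℕ => Real.log X) atTop atTop :=
    Real.tendsto_log_atTop.comp tendsto_natCast_atTop_atTop
  obtain ⟨X₃, hX₃⟩ := eventually_atTop.1 (Pool.Agent.TSH.tendsto_L3.eventually_ge_atTop 1)
  obtain ⟨n₁, hn₁⟩ := scale ε hε X₃
  obtain ⟨c, hc⟩ : ∃ c : ℝ, c = min c₁ c₂ := ⟨_, rfl⟩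
  have hc0 : 0 < c := by rw [hc]; positivity
  have hca : c ≤ c₁ := by rw [hc]; exact min_le_left _ _
  have hcb : c ≤ c₂ := by rw [hc]; exact min_le_right _ _
  refine ⟨c, hc0, max n₀ n₁, fun n hn m hm hmn K hK hKc M₁ H₁ M₂ H₂ hW1 hW2 => ?_⟩
  obtain ⟨hX, hX3, hl1, hl2⟩ := hn₀ n ((le_max_left _ _).trans hn) m hm hmn
  have hL3 : 1 ≤ L3 (n / m) := hX₃ _ (hn₁ n ((le_max_right _ _).trans hn) m hm hmn).1
  have hL3' : 1 ≤ Real.log (Real.log (Real.log ((n / m : ℕ) : ℝ))) := hL3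
  have hm0 : (0 : ℝ) < m := by exact_mod_cast hm
  have hmX : (m : ℝ) * ((n / m : ℕ) : ℝ) ≤ n := by exact_mod_cast Nat.mul_div_le n m
  obtain ⟨X, hXd⟩ : ∃ X : ℕ, X = n / m := ⟨_, rfl⟩
  rw [← hXd] at hX hX3 hl1 hl2 hL3' hmX hK hW1 hW2 ⊢
  have hX3' : (3 : ℝ) ≤ X := by exact_mod_cast hX3
  have hlX : 0 < Real.log (X : ℝ) := Real.log_pos (by linarith)
  have hL0 : 0 < Real.log (n : ℝ) := by linarith
  have hK2 : c₀ * X / Real.log n ^ B ≤ K.card := by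
    have e1 : (m : ℝ) * (c₀ * X / Real.log n ^ B) ≤ m * K.card := by
      refine le_trans ?_ hKc
      rw [← mul_div_assoc]
      apply div_le_div_of_nonneg_right _ (by positivity)
      nlinarith
    exact le_of_mul_le_mul_left e1 hm0
  have h3 := hX₁ X ((le_max_left _ _).trans hX) (Real.log n) hl1 hl2 K hK hK2 M₁ H₁ hW1
  have hH₁ : (0 : ℝ) ≤ H₁ := Nat.cast_nonneg _
  have hH₂ : (0 : ℝ) ≤ H₂ := Nat.cast_nonneg _
  have h4 : c * H₁ / Real.log (Real.log (Real.log (X : ℝ))) ≤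
      c₁ * H₁ / Real.log (Real.log (Real.log (X : ℝ))) := by
    apply div_le_div_of_nonneg_right _ (by linarith)
    exact mul_le_mul_of_nonneg_right hca hH₁
  refine h4.trans (h3.trans ?_)
  norm_cast
  apply Finset.card_le_card
  intro h hh
  obtain ⟨h5, h6⟩ := mem_filter.1 hh
  rw [mem_filter]
  refine ⟨h5, ?_⟩
  have h7 := hX₂ X ((le_max_right _ _).trans hX) (Real.log n) hl1 hl2
    (K.filter (fun q => R₁ h q)) (fun q hq => hK q (mem_filter.1 hq).1) h6 M₂ H₂ hW2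
  have h8 : c * H₂ / Real.log (Real.log (Real.log (X : ℝ))) ≤
      c₂ * H₂ / Real.log (Real.log (Real.log (X : ℝ))) := by
    apply div_le_div_of_nonneg_right _ (by linarith)
    exact mul_le_mul_of_nonneg_right hcb hH₂
  refine h8.trans (h7.trans ?_)
  norm_cast
  apply Finset.card_le_card
  intro k hk
  obtain ⟨h9, h10⟩ := mem_filter.1 hk
  rw [mem_filter]
  refine ⟨h9, ?_⟩
  have h11 : c * X / Real.log n ^ (B + 2) ≤ c₂ * X / Real.log n ^ (B + 1 + 1) := by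
    apply div_le_div_of_nonneg_right _ (by positivity)
    exact mul_le_mul_of_nonneg_right hcb (by linarith)
  refine h11.trans (h10.trans ?_)
  norm_cast
  apply Finset.card_le_card
  intro q hq
  obtain ⟨h12, h13⟩ := mem_filter.1 hq
  obtain ⟨h14, h15⟩ := mem_filter.1 h12
  exact mem_filter.2 ⟨h14, h15, h13⟩

/-- the tool for `p_q - q + h` -/
theorem tool_pq (hGap : Pool.Agent.SI.St_Gap) (ε : ℝ) (hε : 0 < ε) :
    Tool (fun h q => (Nat.nth Nat.Prime (q - 1) - q + h).Prime)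
      (fun X M H => (X : ℝ) ^ (1 / 4 + ε) ≤ H ∧ (M : ℝ) + H ≤ (X : ℝ) ^ (1 - ε)) := by
  classical
  intro C
  obtain ⟨c, hc, h⟩ := Pool.Agent.TSH.shift_seq hGap ε hε C
  refine ⟨c, hc, ?_⟩
  filter_upwards [h, eventually_ge_atTop 400] with X hX hX4 K hK hKc M H hW
  have h5 := hX pq K (pq_injOn hK) (fun q hq => pq_le hX4 (hK q hq).2) hKc M H hW.1 hW.2
  refine h5.trans ?_
  norm_cast
  apply Finset.card_le_card
  intro h' hh'
  simp only [Finset.mem_filter] at hh' ⊢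
  refine ⟨hh'.1, hh'.2.trans ?_⟩
  norm_cast
  apply Finset.card_le_card
  intro q hq
  simp only [Finset.mem_filter] at hq ⊢
  exact hq

end Pool.Agent.TSX
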