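import Mathlib
import Pool.Agent.TSX.Nest
import Pool.Agent.SQS.All

set_option autoImplicit false

/-!
# TSX / Tool: the tool for `q ^ 2 - k`
-/

namespace Pool.Agent.TSX

open Finset Filter
open Pool.Agent.TSH (L3)

open Classical in
/-- primes `q ^ 2 - k`, `k` in a window -/
theorem tool_sq (hGap : Pool.Agent.SI.St_Gap) (ε : ℝ) (hε : 0 < ε) :
    Tool (fun k q => (q ^ 2 - k).Prime)
      (fun X M H => (X : ℝ) ≤ H ∧ (M : ℝ) + H ≤ (X : ℝ) ^ (2 - ε)) := by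
  intro C
  obtain ⟨c, hc, h⟩ := Pool.Agent.SQS.squares hGap (ε / 2) (by linarith) C
  refine ⟨c, hc, ?_⟩
  have hT1 : Tendsto (fun n : ℕ => (n : ℝ) ^ (ε / 2)) atTop atTop :=
    (tendsto_rpow_atTop (by linarith)).comp tendsto_natCast_atTop_atTop
  filter_upwards [h, hT1.eventually_ge_atTop 3, eventually_ge_atTop 1] with X hX hX3 hX1 K hK hKc M H hW
  obtain ⟨hW1, hW2⟩ := hW
  have hX1' : (1 : ℝ) ≤ X := by exact_mod_cast hX1
  have hX0 : (0 : ℝ) < X := by linarith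
  obtain ⟨T, hT⟩ : ∃ T : ℕ, T = M + H + 1 := ⟨_, rfl⟩
  have hH1 : (1 : ℝ) ≤ H := by linarith
  have hM0 : (0 : ℝ) ≤ M := Nat.cast_nonneg _
  have hTH : (T : ℝ) + (0 : ℕ) + H ≤ (X : ℝ) ^ (2 - ε / 2) := by
    have e1 : (X : ℝ) ^ (2 - ε / 2) = (X : ℝ) ^ (2 - ε) * (X : ℝ) ^ (ε / 2) := by
      rw [← Real.rpow_add hX0]
      congr 1
      ring
    have e2 : (X : ℝ) ^ (2 - ε) * 3 ≤ (X : ℝ) ^ (2 - ε) * (X : ℝ) ^ (ε / 2) :=
      mul_le_mul_of_nonneg_left hX3 (by positivity)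
    rw [e1, hT]
    push_cast
    linarith
  have h1 := hX K (fun q hq => (hK q hq).2) hKc 0 H T hW1 hTH
  refine h1.trans ?_
  norm_cast
  rw [zero_add]
  refine Finset.card_le_card_of_injOn (fun h => T - h) ?_ ?_
  · intro h' hh'
    rw [mem_coe, mem_filter, mem_Ioc] at hh'
    obtain ⟨⟨h2, h3⟩, h4⟩ := hh'
    rw [mem_coe, mem_filter, mem_Ioc]
    refine ⟨⟨by show M < T - h'; omega, by show T - h' ≤ M + H; omega⟩, h4.trans ?_⟩
    norm_cast
    apply Finset.card_le_card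
    intro q hq
    simp only [Finset.mem_filter] at hq ⊢
    obtain ⟨h5, h6, h7⟩ := hq
    refine ⟨h5, ?_⟩
    show (q ^ 2 - (T - h')).Prime
    have e : q ^ 2 - (T - h') = q ^ 2 - T + h' := by omega
    rw [e]
    exact h7
  · intro a ha b hb hab
    rw [mem_coe, mem_filter, mem_Ioc] at ha hb
    simp only at hab
    omega

end Pool.Agent.TSX
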