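import Mathlib
import Pool.Agent.TSX.Defs
import Pool.Agent.TSX.Tool
import Pool.Agent.EVN.Stmts2

set_option autoImplicit false

/-!
# TSX / Main: many solutions `p` give many good shifts
-/

namespace Pool.Agent.TSX

open Finset Filter
open Pool.Agent.EVN (SolP Phi)

/-- a value `q` has at most `m` preimages `p` -/
theorem card_fib (m n : ℕ) (hm : 1 ≤ m) (S : Finset ℕ) (hS : ∀ p ∈ S, p < n) :
    S.card ≤ m * (S.image (fun p => (n - p) / m)).card := by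
  classical
  refine Finset.card_le_mul_card_image S m ?_
  intro q _
  have h1 : ((S.filter (fun p => (n - p) / m = q)).image (fun p => (n - p) % m)).card ≤ m := by
    refine (Finset.card_le_card (t := range m) ?_).trans (by rw [card_range])
    intro x hx
    obtain ⟨p, _, rfl⟩ := mem_image.1 hx
    exact mem_range.2 (Nat.mod_lt _ hm)
  rw [Finset.card_image_of_injOn] at h1
  · exact h1
  · intro a ha b hb hab
    rw [mem_coe, mem_filter] at ha hb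
    simp only at hab
    have h2 := hS a ha.1
    have h3 := hS b hb.1
    have h4 := Nat.div_add_mod (n - a) m
    have h5 := Nat.div_add_mod (n - b) m
    rw [ha.2] at h4
    rw [hb.2, ← hab] at h5
    omega

/-- **The tool.** -/
theorem tool (hGap : Pool.Agent.SI.St_Gap) (e : ℕ) (ε : ℝ) (hε : 0 < ε) (a : ℝ) (ha : 0 < a) :
    ∃ c : ℝ, 0 < c ∧ ∃ n₀ : ℕ, ∀ n : ℕ, n₀ ≤ n → ∀ m : ℕ, 1 ≤ m → (m : ℝ) ≤ (n : ℝ) ^ (1 - ε) →
      a * n / Real.log n ^ e ≤ ((SolP Phi m n).card : ℝ) → Fine c ε (e + 2) m n := by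
  classical
  obtain ⟨c, hc, n₀, h⟩ := nest (tool_pq hGap ε hε) (tool_sq hGap ε hε) ε hε e a ha
  refine ⟨c, hc, n₀, fun n hn m hm hmn hS M₁ H₁ M₂ H₂ hw1 hw2 hw3 hw4 => ?_⟩
  obtain ⟨K, hK⟩ : ∃ K : Finset ℕ, K = (SolP Phi m n).image (fun p => (n - p) / m) := ⟨_, rfl⟩
  have hmem : ∀ p ∈ SolP Phi m n, p < n ∧ p.Prime ∧ ((n - p) / m).Prime ∧ Phi n ((n - p) / m) := by
    intro p hp
    simp only [SolP, mem_filter, mem_range] at hp
    exact hp
  have hKm : ∀ q ∈ K, q.Prime ∧ (∃ p : ℕ, p.Prime ∧ p < n ∧ (n - p) / m = q) ∧ Phi n q ∧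
      q ≤ n / m := by
    intro q hq
    rw [hK] at hq
    obtain ⟨p, hp, rfl⟩ := mem_image.1 hq
    obtain ⟨h1, h2, h3, h4⟩ := hmem p hp
    exact ⟨h3, ⟨p, h2, h1, rfl⟩, h4, Nat.div_le_div_right (Nat.sub_le _ _)⟩
  have hKc : a * n / Real.log n ^ e ≤ m * K.card := by
    refine hS.trans ?_
    have h1 := card_fib m n hm (SolP Phi m n) (fun p hp => (hmem p hp).1)
    rw [← hK] at h1
    exact_mod_cast h1
  have h1 := h n hn m hm hmn K (fun q hq => ⟨(hKm q hq).1.two_le, (hKm q hq).2.2.2⟩) hKc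
    M₁ H₁ M₂ H₂ ⟨hw1, hw2⟩ ⟨hw3, hw4⟩
  refine h1.trans ?_
  norm_cast
  apply Finset.card_le_card
  intro x hx
  simp only [Finset.mem_filter] at hx ⊢
  refine ⟨hx.1, hx.2.trans ?_⟩
  norm_cast
  apply Finset.card_le_card
  intro y hy
  simp only [Finset.mem_filter] at hy ⊢
  refine ⟨hy.1, hy.2.trans ?_⟩
  norm_cast
  apply Finset.card_le_card
  intro q hq
  simp only [Finset.mem_filter] at hq
  obtain ⟨hqK, hq1, hq2⟩ := hq
  obtain ⟨g1, ⟨p, g2, g3, g4⟩, ⟨⟨_, g5⟩, g6⟩, g7⟩ := hKm q hqK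
  simp only [Quad, Finset.mem_filter, mem_range]
  refine ⟨?_, g1, ⟨p, g2, g3, g4⟩, hq1, hq2, g5, g6⟩
  have h2 := g2.two_le
  have h3 : (n - p) / m ≤ n - p := Nat.div_le_self _ _
  omega

open Classical in
theorem fine_mono1 {c c' ε : ℝ} {e m n : ℕ} (h : c' ≤ c) (hn : 1 ≤ n)
    (hL : 0 ≤ Real.log (Real.log (Real.log ((n / m : ℕ) : ℝ)))) (hF : Fine c ε e m n) :
    Fine c' ε e m n := by
  intro M₁ H₁ M₂ H₂ hw1 hw2 hw3 hw4
  have hln : 0 ≤ Real.log (n : ℝ) := Real.log_nonneg (by exact_mod_cast hn)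
  refine le_trans ?_ ((hF M₁ H₁ M₂ H₂ hw1 hw2 hw3 hw4).trans ?_)
  · apply div_le_div_of_nonneg_right _ hL
    exact mul_le_mul_of_nonneg_right h (Nat.cast_nonneg _)
  · norm_cast
    apply Finset.card_le_card
    intro x hx
    simp only [Finset.mem_filter] at hx ⊢
    refine ⟨hx.1, le_trans ?_ (hx.2.trans ?_)⟩
    · apply div_le_div_of_nonneg_right _ hL
      exact mul_le_mul_of_nonneg_right h (Nat.cast_nonneg _)
    · norm_cast
      apply Finset.card_le_card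
      intro y hy
      simp only [Finset.mem_filter] at hy ⊢
      refine ⟨hy.1, le_trans ?_ hy.2⟩
      apply div_le_div_of_nonneg_right _ (by positivity)
      exact mul_le_mul_of_nonneg_right h (Nat.cast_nonneg _)

/-- **The tool**, for all small constants. -/
theorem tool2 (hGap : Pool.Agent.SI.St_Gap) (e : ℕ) (ε : ℝ) (hε : 0 < ε) (a : ℝ) (ha : 0 < a) :
    ∃ c₁ : ℝ, 0 < c₁ ∧ ∃ n₀ : ℕ, ∀ c : ℝ, c ≤ c₁ → ∀ n : ℕ, n₀ ≤ n → ∀ m : ℕ, 1 ≤ m →
      (m : ℝ) ≤ (n : ℝ) ^ (1 - ε) →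
      a * n / Real.log n ^ e ≤ ((SolP Phi m n).card : ℝ) → Fine c ε (e + 2) m n := by
  obtain ⟨c₁, hc₁, n₀, h⟩ := tool hGap e ε hε a ha
  obtain ⟨X₃, hX₃⟩ := eventually_atTop.1 (Pool.Agent.TSH.tendsto_L3.eventually_ge_atTop 1)
  obtain ⟨n₁, hn₁⟩ := scale ε hε X₃
  refine ⟨c₁, hc₁, max (max n₀ n₁) 1, fun c hc n hn m hm hmn hS => ?_⟩
  have h1 : n₀ ≤ n := (le_max_left _ _).trans ((le_max_left _ _).trans hn)
  have h2 : n₁ ≤ n := (le_max_right _ _).trans ((le_max_left _ _).trans hn)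
  have h3 : 1 ≤ n := (le_max_right _ _).trans hn
  have hL3 : 1 ≤ Real.log (Real.log (Real.log ((n / m : ℕ) : ℝ))) :=
    hX₃ _ (hn₁ n h2 m hm hmn).1
  exact fine_mono1 hc h3 (by linarith) (h n h1 m hm hmn hS)

end Pool.Agent.TSX
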