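import Mathlib
import Pool.Agent.TSX.Defs
import Pool.Agent.TSX.Main
import Pool.Agent.TSX.Every

set_option autoImplicit false

/-!
# TSX / Every2: the exceptional `m` of every large `n`, for `TSX.Exc`
-/

namespace Pool.Agent.TSX

open Finset Filter
open Pool.Agent.EVN (SolP Phi)

/-- `Fine` is monotone in the constant -/
theorem fine_mono {c c₀ ε : ℝ} {e m n : ℕ} (hc : 0 ≤ c) (h : c ≤ c₀) (hF : Fine c₀ ε e m n) :
    Fine c ε e m n := by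
  classical
  intro M₁ H₁ M₂ H₂ w1 w2 w3 w4
  have hF := hF M₁ H₁ M₂ H₂ w1 w2 w3 w4
  rcases le_or_gt (Real.log (Real.log (Real.log ((n / m : ℕ) : ℝ)))) 0 with hL | hL
  · exact (div_nonpos_of_nonneg_of_nonpos (mul_nonneg hc (Nat.cast_nonneg _)) hL).trans
      (Nat.cast_nonneg _)
  · have hn : 0 ≤ Real.log (n : ℝ) ^ e := pow_nonneg (Real.log_natCast_nonneg n) e
    have e1 : c * H₁ / Real.log (Real.log (Real.log ((n / m : ℕ) : ℝ))) ≤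
        c₀ * H₁ / Real.log (Real.log (Real.log ((n / m : ℕ) : ℝ))) :=
      div_le_div_of_nonneg_right (mul_le_mul_of_nonneg_right h (Nat.cast_nonneg _)) hL.le
    have e2 : c * H₂ / Real.log (Real.log (Real.log ((n / m : ℕ) : ℝ))) ≤
        c₀ * H₂ / Real.log (Real.log (Real.log ((n / m : ℕ) : ℝ))) :=
      div_le_div_of_nonneg_right (mul_le_mul_of_nonneg_right h (Nat.cast_nonneg _)) hL.le
    have e3 : c * ((n / m : ℕ) : ℝ) / Real.log n ^ e ≤ c₀ * ((n / m : ℕ) : ℝ) / Real.log n ^ e :=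
      div_le_div_of_nonneg_right (mul_le_mul_of_nonneg_right h (Nat.cast_nonneg _)) hn
    refine e1.trans (hF.trans ?_)
    norm_cast
    apply Finset.card_le_card
    intro x hx
    rw [Finset.mem_filter] at hx ⊢
    refine ⟨hx.1, e2.trans (hx.2.trans ?_)⟩
    norm_cast
    apply Finset.card_le_card
    intro y hy
    rw [Finset.mem_filter] at hy ⊢
    exact ⟨hy.1, e3.trans hy.2⟩

theorem exc_anti {c c₀ ε : ℝ} {e m n : ℕ} (hc : 0 ≤ c) (h : c ≤ c₀) (hE : Exc c ε e m n) :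
    Exc c₀ ε e m n :=
  ⟨hE.1, hE.2.1, fun hF => hE.2.2 (fine_mono hc h hF)⟩

/-- `m ≤ n ^ (1 - ε)` gives `12 m ≤ n` for large `n` -/
theorem twelve (ε : ℝ) (hε : 0 < ε) : ∀ᶠ n : ℕ in atTop, ∀ m : ℕ,
    (m : ℝ) ≤ (n : ℝ) ^ (1 - ε) → 12 * m ≤ n := by
  have h1 : Tendsto (fun n : ℕ => (n : ℝ) ^ ε) atTop atTop :=
    (tendsto_rpow_atTop hε).comp tendsto_natCast_atTop_atTop
  filter_upwards [h1.eventually_ge_atTop 12, eventually_ge_atTop 1] with n h2 hn m hm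
  have hn0 : (0 : ℝ) < n := by exact_mod_cast hn
  have h3 : 12 * (m : ℝ) ≤ n := by
    calc 12 * (m : ℝ) ≤ (n : ℝ) ^ ε * (n : ℝ) ^ (1 - ε) :=
          mul_le_mul h2 hm (Nat.cast_nonneg _) (by positivity)
      _ = n := by
          rw [← Real.rpow_add hn0]
          have : ε + (1 - ε) = 1 := by ring
          rw [this, Real.rpow_one]
  exact_mod_cast h3

open scoped Classical in
/-- **Clause (ii).**  `ht` is `EVN.t4phi`, `h4` is `EVN.final4`, `hGap` is `SI.gap`. -/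
theorem every_exc (hGap : Pool.Agent.SI.St_Gap)
    (ht : ∀ ε : ℝ, 0 < ε → ∃ n₀ : ℕ, ∀ n m : ℕ, n₀ ≤ n → (n : ℝ) ^ (1 / 4 + ε) ≤ m →
      2 * m + 1 < n → (SolP Phi m n).Nonempty ∧
        (12 * m ≤ n → (n : ℝ) / Real.log n ^ 5 ≤ ((SolP Phi m n).card : ℝ)))
    (h4 : ∃ κ : ℝ, 0 < κ ∧ ∃ C n₀ : ℕ, ∀ n ≥ n₀, ∀ x : ℕ, 1 ≤ x → ∀ u : ℝ,
      u = Real.log x / Real.log (Real.log n) → C * Real.log (Real.log (Real.log n)) ^ 2 ≤ u →
      (((Ioc x (2 * x)).filter (fun m => 2 * m + 1 < n ∧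
        (SolP Phi m n = ∅ ∨ (12 * m ≤ n ∧ ((SolP Phi m n).card : ℝ) < n / Real.log n ^ 5)))).card
          : ℝ) ≤ x * Real.exp (-(κ * (u * Real.log u)))) :
    ∃ κ : ℝ, 0 < κ ∧ ∃ C : ℕ, ∀ ε : ℝ, 0 < ε → ∃ c₀ : ℝ, 0 < c₀ ∧ ∀ c : ℝ, 0 ≤ c → c ≤ c₀ →
      ∃ n₀ : ℕ, ∀ n ≥ n₀, (∀ m : ℕ, Exc c ε 7 m n → (m : ℝ) < (n : ℝ) ^ (1 / 4 + ε)) ∧
        ∀ (x : ℕ) (u : ℝ), u = Real.log x / Real.log (Real.log n) →
          C * Real.log (Real.log (Real.log n)) ^ 2 ≤ u →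
          (((Ioc x (2 * x)).filter (fun m => Exc c ε 7 m n)).card : ℝ) ≤ x * u ^ (-(κ * u)) := by
  obtain ⟨κ, hκ, C, h⟩ := every_of Phi ht h4
  refine ⟨κ, hκ, C, fun ε hε => ?_⟩
  obtain ⟨c₀, hc₀, n₁, h1⟩ := tool hGap 5 ε hε 1 one_pos
  refine ⟨c₀, hc₀, fun c hc hcc => h ε hε (fun m n => Exc c ε 7 m n) ?_⟩
  filter_upwards [twelve ε hε, eventually_ge_atTop n₁] with n h2 hn m hm
  obtain ⟨a1, a2, a3⟩ := exc_anti hc hcc hm
  refine ⟨a1.1, h2 m a2, ?_⟩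
  by_contra hcon
  rw [not_lt] at hcon
  exact a3 (h1 n hn m a1.1 a2 (by rwa [one_mul]))

end Pool.Agent.TSX
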