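import Mathlib
import Pool.Agent.TSX.Every2

set_option autoImplicit false

/-!
# TSX / Every5: as Every and Every2, with the condition `C ≤ u` only
-/

namespace Pool.Agent.TSX

open Finset Filter
open Pool.Agent.EVN (SolP Phi)

open scoped Classical in
theorem every_of5 (Φ : ℕ → ℕ → Prop)
    (ht : ∀ ε : ℝ, 0 < ε → ∃ n₀ : ℕ, ∀ n m : ℕ, n₀ ≤ n → (n : ℝ) ^ (1 / 4 + ε) ≤ m →
      2 * m + 1 < n → (SolP Φ m n).Nonempty ∧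
        (12 * m ≤ n → (n : ℝ) / Real.log n ^ 5 ≤ ((SolP Φ m n).card : ℝ)))
    (h5 : ∃ κ : ℝ, 0 < κ ∧ ∃ C n₀ : ℕ, ∀ n ≥ n₀, ∀ x : ℕ, 1 ≤ x → ∀ u : ℝ,
      u = Real.log x / Real.log (Real.log n) → (C : ℝ) ≤ u →
      (((Ioc x (2 * x)).filter (fun m => 2 * m + 1 < n ∧
        (SolP Φ m n = ∅ ∨ (12 * m ≤ n ∧ ((SolP Φ m n).card : ℝ) < n / Real.log n ^ 5)))).card
          : ℝ) ≤ x * Real.exp (-(κ * (u * Real.log u)))) :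
    ∃ κ : ℝ, 0 < κ ∧ ∃ C : ℕ, ∀ ε : ℝ, 0 < ε → ∀ P : ℕ → ℕ → Prop,
      (∀ᶠ n : ℕ in atTop, ∀ m : ℕ, P m n → 1 ≤ m ∧ 12 * m ≤ n ∧
        ((SolP Φ m n).card : ℝ) < n / Real.log n ^ 5) →
      ∃ n₀ : ℕ, ∀ n ≥ n₀, (∀ m : ℕ, P m n → (m : ℝ) < (n : ℝ) ^ (1 / 4 + ε)) ∧
        ∀ (x : ℕ) (u : ℝ), u = Real.log x / Real.log (Real.log n) → (C : ℝ) ≤ u →
          (((Ioc x (2 * x)).filter (fun m => P m n)).card : ℝ) ≤ x * u ^ (-(κ * u)) := by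
  obtain ⟨κ, hκ, C, n₁, h5⟩ := h5
  refine ⟨κ, hκ, C + 1, fun ε hε P hP => ?_⟩
  obtain ⟨n₂, ht⟩ := ht ε hε
  obtain ⟨n₃, hP⟩ := eventually_atTop.1 hP
  refine ⟨max (max n₁ n₂) n₃, fun n hn => ?_⟩
  have hn1 : n₁ ≤ n := ((le_max_left _ _).trans (le_max_left _ _)).trans hn
  have hn2 : n₂ ≤ n := ((le_max_right _ _).trans (le_max_left _ _)).trans hn
  have hn3 : n₃ ≤ n := (le_max_right _ _).trans hn
  refine ⟨fun m hm => ?_, fun x u hu hC => ?_⟩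
  · by_contra hcon
    rw [not_lt] at hcon
    obtain ⟨a1, a2, a3⟩ := hP n hn3 m hm
    obtain ⟨-, b2⟩ := ht n m hn2 hcon (by omega)
    exact absurd a3 (not_lt.mpr (b2 a2))
  · push_cast at hC
    have hC0 : (0 : ℝ) ≤ C := Nat.cast_nonneg C
    have hu1 : 1 ≤ u := by linarith
    have hx : 1 ≤ x := by
      rcases Nat.eq_zero_or_pos x with h | h
      · rw [h, Nat.cast_zero, Real.log_zero, zero_div] at hu
        linarith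
      · exact h
    have h2 := h5 n hn1 x hx u hu (by linarith)
    have h3 : (x : ℝ) * Real.exp (-(κ * (u * Real.log u))) = x * u ^ (-(κ * u)) := by
      rw [Real.rpow_def_of_pos (by linarith)]
      congr 2
      ring
    rw [← h3]
    refine le_trans ?_ h2
    norm_cast
    apply card_le_card
    intro m hm
    obtain ⟨c1, c2⟩ := mem_filter.1 hm
    obtain ⟨a1, a2, a3⟩ := hP n hn3 m c2
    exact mem_filter.2 ⟨c1, by omega, Or.inr ⟨a2, a3⟩⟩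

open scoped Classical in
/-- **Clause (ii)** with `C ≤ u`.  `ht` is `EVN.t4phi`, `h5` is `EVN.final5`, `hGap` is `SI.gap`. -/
theorem every_exc5 (hGap : Pool.Agent.SI.St_Gap)
    (ht : ∀ ε : ℝ, 0 < ε → ∃ n₀ : ℕ, ∀ n m : ℕ, n₀ ≤ n → (n : ℝ) ^ (1 / 4 + ε) ≤ m →
      2 * m + 1 < n → (SolP Phi m n).Nonempty ∧
        (12 * m ≤ n → (n : ℝ) / Real.log n ^ 5 ≤ ((SolP Phi m n).card : ℝ)))
    (h5 : ∃ κ : ℝ, 0 < κ ∧ ∃ C n₀ : ℕ, ∀ n ≥ n₀, ∀ x : ℕ, 1 ≤ x → ∀ u : ℝ,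
      u = Real.log x / Real.log (Real.log n) → (C : ℝ) ≤ u →
      (((Ioc x (2 * x)).filter (fun m => 2 * m + 1 < n ∧
        (SolP Phi m n = ∅ ∨ (12 * m ≤ n ∧ ((SolP Phi m n).card : ℝ) < n / Real.log n ^ 5)))).card
          : ℝ) ≤ x * Real.exp (-(κ * (u * Real.log u)))) :
    ∃ κ : ℝ, 0 < κ ∧ ∃ C : ℕ, ∀ ε : ℝ, 0 < ε → ∃ c₀ : ℝ, 0 < c₀ ∧ ∀ c : ℝ, 0 ≤ c → c ≤ c₀ →
      ∃ n₀ : ℕ, ∀ n ≥ n₀, (∀ m : ℕ, Exc c ε 7 m n → (m : ℝ) < (n : ℝ) ^ (1 / 4 + ε)) ∧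
        ∀ (x : ℕ) (u : ℝ), u = Real.log x / Real.log (Real.log n) → (C : ℝ) ≤ u →
          (((Ioc x (2 * x)).filter (fun m => Exc c ε 7 m n)).card : ℝ) ≤ x * u ^ (-(κ * u)) := by
  obtain ⟨κ, hκ, C, h⟩ := every_of5 Phi ht h5
  refine ⟨κ, hκ, C, fun ε hε => ?_⟩
  obtain ⟨c₀, hc₀, n₁, h1⟩ := tool hGap 5 ε hε 1 one_pos
  refine ⟨c₀, hc₀, fun c hc hcc => h ε hε (fun m n => Exc c ε 7 m n) ?_⟩
  filter_upwards [twelve ε hε, eventually_ge_atTop n₁] with n h2 hn m hm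
  obtain ⟨a1, a2, a3⟩ := exc_anti hc hcc hm
  refine ⟨a1.1, h2 m a2, ?_⟩
  by_contra hcon
  rw [not_lt] at hcon
  exact a3 (h1 n hn m a1.1 a2 (by rwa [one_mul]))

end Pool.Agent.TSX
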