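import Mathlib
import Pool.Agent.TSX.Main
import Pool.Agent.TLL.St2

set_option autoImplicit false

/-!
# TSX / Few: there are few exceptional pairs
-/

namespace Pool.Agent.TSX

open Finset Filter
open Pool.Agent.EVN (SolP Phi)
open Pool.Agent.TLL (ExcP PrM PrA)
open Pool.Agent.AAN (FinH)

theorem adm_le {m n : ℕ} (h : Adm m n) : 1 ≤ m ∧ 2 * m + 1 < n := ⟨h.1, h.2.1⟩

/-- an exceptional pair with large `n` is exceptional in the old sense -/
theorem exc_old (hGap : Pool.Agent.SI.St_Gap) (ε : ℝ) (hε : 0 < ε) (a : ℝ) (ha : 0 < a) :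
    ∃ c₁ : ℝ, 0 < c₁ ∧ ∃ n₀ : ℕ, ∀ c : ℝ, c ≤ c₁ → ∀ n : ℕ, n₀ ≤ n → ∀ m : ℕ,
      Exc c ε 5 m n → ExcP a 3 Phi m n := by
  obtain ⟨c₁, hc₁, n₀, h⟩ := tool2 hGap 3 ε hε a ha
  have hT1 : Tendsto (fun n : ℕ => (n : ℝ) ^ ε) atTop atTop :=
    (tendsto_rpow_atTop hε).comp tendsto_natCast_atTop_atTop
  obtain ⟨n₁, hn₁⟩ := eventually_atTop.1
    ((hT1.eventually_ge_atTop 12).and (eventually_ge_atTop 1))
  refine ⟨c₁, hc₁, max n₀ n₁, fun c hc n hn m hE => ?_⟩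
  obtain ⟨h1, h2, h3⟩ := hE
  obtain ⟨h12, hn1⟩ := hn₁ n ((le_max_right _ _).trans hn)
  have hn1' : (1 : ℝ) ≤ n := by exact_mod_cast hn1
  have hn0 : (0 : ℝ) < n := by linarith
  refine ⟨h1, Or.inr ⟨?_, ?_⟩⟩
  · have e1 : (12 : ℝ) * m ≤ n := by
      calc (12 : ℝ) * m ≤ (n : ℝ) ^ ε * (n : ℝ) ^ (1 - ε) :=
            mul_le_mul h12 h2 (Nat.cast_nonneg _) (by positivity)
        _ = n := by
            rw [← Real.rpow_add hn0]
            have : (ε + (1 - ε) : ℝ) = 1 := by ring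
            rw [this, Real.rpow_one]
    exact_mod_cast e1
  · by_contra hcon
    exact h3 (h c hc n ((le_max_left _ _).trans hn) m h1.1 h2 (not_lt.1 hcon))

open Classical in
/-- **There are few exceptional pairs.** -/
theorem few (hGap : Pool.Agent.SI.St_Gap) (a : ℝ) (ha : 0 < a) (hM : PrM a 3 Phi) (hA : PrA a 3 Phi)
    (hH : FinH a 3 Phi) (ε : ℝ) (hε : 0 < ε) : ∃ c₁ : ℝ, 0 < c₁ ∧ ∃ C : ℕ, ∀ c : ℝ, c ≤ c₁ →
      ∀ A : ℕ, ∃ N₀ : ℕ, ∀ N ≥ N₀, (((Icc 1 N ×ˢ Icc 1 N).filter (fun p : ℕ × ℕ => Exc c ε 5 p.1 p.2)).card : ℝ) ≤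
        N / Real.log N ^ A ∧
      ∀ m : ℕ, 1 ≤ m →
        (m : ℝ) ^ (1 / 110 : ℝ) * ((Icc 1 N ×ˢ Icc 1 N).filter
          (fun p : ℕ × ℕ => m ≤ p.1 ∧ Exc c ε 5 p.1 p.2)).card ≤ N * Real.log N ^ C ∧
        (m : ℝ) * ((Icc 1 N).filter (fun n : ℕ => Exc c ε 5 m n)).card ≤ N * Real.log N ^ C := by
  obtain ⟨c₁, hc₁, n₀, h⟩ := exc_old hGap ε hε a ha
  obtain ⟨C₁, N₁, h1⟩ := hM
  obtain ⟨C₂, h3⟩ := hH
  refine ⟨c₁, hc₁, max C₁ C₂ + 1, fun c hc A => ?_⟩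
  have h := h c hc
  obtain ⟨N₂, h2⟩ := hA (A + 1)
  obtain ⟨N₃, h3⟩ := h3 A
  have hlogT : Tendsto (fun X : ℕ => Real.log X) atTop atTop :=
    Real.tendsto_log_atTop.comp tendsto_natCast_atTop_atTop
  obtain ⟨N₄, hN₄⟩ := eventually_atTop.1 ((hlogT.eventually_ge_atTop (2 : ℝ)).and
    ((Pool.Agent.TSH.log_rpow (2 * (n₀ : ℝ) ^ 2) A 1 (by norm_num)).and
      (eventually_ge_atTop (n₀ ^ 3 + n₀ ^ 2 + 1))))
  refine ⟨max (max N₁ N₂) (max N₃ N₄), fun N hN => ?_⟩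
  have hN1 : N₁ ≤ N := (le_max_left _ _).trans ((le_max_left _ _).trans hN)
  have hN2 : N₂ ≤ N := (le_max_right _ _).trans ((le_max_left _ _).trans hN)
  have hN3 : N₃ ≤ N := (le_max_left _ _).trans ((le_max_right _ _).trans hN)
  obtain ⟨hL2, hpw, hN5⟩ := hN₄ N ((le_max_right _ _).trans ((le_max_right _ _).trans hN))
  have hL : 1 ≤ Real.log N := by linarith
  have hL0 : 0 < Real.log (N : ℝ) := by linarith
  have hN5' : (n₀ : ℝ) ^ 3 + (n₀ : ℝ) ^ 2 + 1 ≤ N := by exact_mod_cast hN5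
  have hn0 : (0 : ℝ) ≤ n₀ := Nat.cast_nonneg _
  have hN0 : (0 : ℝ) < N := by
    have e1 : (0 : ℝ) ≤ (n₀ : ℝ) ^ 3 := by positivity
    have e2 : (0 : ℝ) ≤ (n₀ : ℝ) ^ 2 := by positivity
    linarith
  have hup : ∀ C : ℕ, C ≤ max C₁ C₂ →
      (N : ℝ) * Real.log N ^ C + N ≤ N * Real.log N ^ (max C₁ C₂ + 1) := by
    intro C hC
    have e1 : (1 : ℝ) ≤ Real.log N ^ C := one_le_pow₀ hL
    have e2 : Real.log (N : ℝ) ^ C ≤ Real.log N ^ max C₁ C₂ := pow_le_pow_right₀ hL hC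
    rw [pow_succ]
    have e3 : (0 : ℝ) < Real.log N ^ max C₁ C₂ := by positivity
    have e4 : Real.log (N : ℝ) ^ C + 1 ≤ Real.log N ^ max C₁ C₂ * Real.log N := by nlinarith
    calc (N : ℝ) * Real.log N ^ C + N = N * (Real.log N ^ C + 1) := by ring
      _ ≤ _ := mul_le_mul_of_nonneg_left e4 hN0.le
  -- splitting a set of pairs
  have hsplit : ∀ P : Finset (ℕ × ℕ), (∀ p ∈ P, p.2 ≤ N ∧ Exc c ε 5 p.1 p.2) →
      (P.card : ℝ) ≤ (P.filter (fun p => n₀ ≤ p.2)).card + (n₀ : ℝ) ^ 2 := by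
    intro P hP
    have e1 : P.card = (P.filter (fun p => n₀ ≤ p.2)).card +
        (P.filter (fun p => ¬ n₀ ≤ p.2)).card :=
      (Finset.card_filter_add_card_filter_not _).symm
    have e2 : (P.filter (fun p => ¬ n₀ ≤ p.2)).card ≤ n₀ ^ 2 := by
      have e3 : P.filter (fun p => ¬ n₀ ≤ p.2) ⊆ range n₀ ×ˢ range n₀ := by
        intro p hp
        obtain ⟨h4, h5⟩ := mem_filter.1 hp
        obtain ⟨h6, h7⟩ := adm_le (hP p h4).2.1
        rw [mem_product, mem_range, mem_range]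
        omega
      refine (Finset.card_le_card e3).trans ?_
      rw [card_product, card_range, sq]
    rw [e1]
    push_cast
    have e4 : ((P.filter (fun p => ¬ n₀ ≤ p.2)).card : ℝ) ≤ (n₀ : ℝ) ^ 2 := by exact_mod_cast e2
    linarith
  refine ⟨?_, fun m hm => ⟨?_, ?_⟩⟩
  · obtain ⟨P, hP⟩ : ∃ P : Finset (ℕ × ℕ), P = (Icc 1 N ×ˢ Icc 1 N).filter
      (fun p : ℕ × ℕ => Exc c ε 5 p.1 p.2) := ⟨_, rfl⟩
    rw [← hP]
    have hPm : ∀ p ∈ P, p.2 ≤ N ∧ Exc c ε 5 p.1 p.2 := by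
      intro p hp
      rw [hP] at hp
      obtain ⟨g1, g2⟩ := mem_filter.1 hp
      exact ⟨(mem_Icc.1 (mem_product.1 g1).2).2, g2⟩
    have e1 := hsplit P hPm
    have e2 := h2 N hN2 (P.filter (fun p => n₀ ≤ p.2)) (by
      intro p hp
      obtain ⟨g1, g2⟩ := mem_filter.1 hp
      exact ⟨(hPm p g1).1, h p.2 g2 p.1 (hPm p g1).2⟩)
    have e3 : (N : ℝ) / Real.log N ^ (A + 1) ≤ N / Real.log N ^ A / 2 := by
      rw [pow_succ, ← div_div]
      exact div_le_div_of_nonneg_left (by positivity) (by norm_num) hL2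
    have e4 : (n₀ : ℝ) ^ 2 ≤ N / Real.log N ^ A / 2 := by
      rw [Real.rpow_one] at hpw
      rw [div_div, le_div_iff₀ (by positivity)]
      linarith
    linarith
  · obtain ⟨P, hP⟩ : ∃ P : Finset (ℕ × ℕ), P = (Icc 1 N ×ˢ Icc 1 N).filter
      (fun p : ℕ × ℕ => m ≤ p.1 ∧ Exc c ε 5 p.1 p.2) := ⟨_, rfl⟩
    rw [← hP]
    have hPm : ∀ p ∈ P, m ≤ p.1 ∧ p.2 ≤ N ∧ Exc c ε 5 p.1 p.2 := by
      intro p hp
      rw [hP] at hp
      obtain ⟨g1, g2, g3⟩ := mem_filter.1 hp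
      exact ⟨g2, (mem_Icc.1 (mem_product.1 g1).2).2, g3⟩
    have e2 := h1 N hN1 m hm (P.filter (fun p => n₀ ≤ p.2)) (by
      intro p hp
      obtain ⟨g1, g2⟩ := mem_filter.1 hp
      exact ⟨(hPm p g1).1, (hPm p g1).2.1, h p.2 g2 p.1 (hPm p g1).2.2⟩)
    have hm1 : (1 : ℝ) ≤ m := by exact_mod_cast hm
    refine le_trans ?_ (hup C₁ (le_max_left _ _))
    by_cases hne : m < n₀
    · have e1 := hsplit P (fun p hp => (hPm p hp).2)
      have e3 : (m : ℝ) ^ (1 / 110 : ℝ) ≤ n₀ := by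
        calc (m : ℝ) ^ (1 / 110 : ℝ) ≤ (m : ℝ) ^ (1 : ℝ) :=
              Real.rpow_le_rpow_of_exponent_le hm1 (by norm_num)
          _ = m := Real.rpow_one _
          _ ≤ n₀ := by exact_mod_cast hne.le
      have e4 : (0 : ℝ) ≤ (m : ℝ) ^ (1 / 110 : ℝ) := by positivity
      calc (m : ℝ) ^ (1 / 110 : ℝ) * P.card
          ≤ (m : ℝ) ^ (1 / 110 : ℝ) * ((P.filter (fun p => n₀ ≤ p.2)).card + (n₀ : ℝ) ^ 2) :=
            mul_le_mul_of_nonneg_left e1 e4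
        _ = (m : ℝ) ^ (1 / 110 : ℝ) * (P.filter (fun p => n₀ ≤ p.2)).card +
            (m : ℝ) ^ (1 / 110 : ℝ) * (n₀ : ℝ) ^ 2 := by ring
        _ ≤ N * Real.log N ^ C₁ + n₀ * (n₀ : ℝ) ^ 2 := by
            apply add_le_add e2
            exact mul_le_mul_of_nonneg_right e3 (by positivity)
        _ ≤ N * Real.log N ^ C₁ + N := by
            have : (n₀ : ℝ) * (n₀ : ℝ) ^ 2 = (n₀ : ℝ) ^ 3 := by ring
            have e5 : (0 : ℝ) ≤ (n₀ : ℝ) ^ 2 := by positivity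
            linarith
    · have e3 : P.filter (fun p => n₀ ≤ p.2) = P := by
        apply Finset.filter_true_of_mem
        intro p hp
        obtain ⟨g1, _, g3⟩ := hPm p hp
        obtain ⟨g4, g5⟩ := adm_le g3.1
        omega
      rw [e3] at e2
      linarith
  · obtain ⟨F, hF⟩ : ∃ F : Finset ℕ, F = (Icc 1 N).filter (fun n : ℕ => Exc c ε 5 m n) := ⟨_, rfl⟩
    rw [← hF]
    have hFm : ∀ n ∈ F, n ≤ N ∧ Exc c ε 5 m n := by
      intro n hn
      rw [hF] at hn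
      obtain ⟨g1, g2⟩ := mem_filter.1 hn
      exact ⟨(mem_Icc.1 g1).2, g2⟩
    have e2 := (h3 N hN3 m (F.filter (fun n => n₀ ≤ n)) (by
      intro n hn
      obtain ⟨g1, g2⟩ := mem_filter.1 hn
      exact ⟨(hFm n g1).1, h n g2 m (hFm n g1).2⟩)).2
    have hm1 : (1 : ℝ) ≤ m := by exact_mod_cast hm
    refine le_trans ?_ (hup C₂ (le_max_right _ _))
    by_cases hne : m < n₀
    · have e1 : F.card = (F.filter (fun n => n₀ ≤ n)).card + (F.filter (fun n => ¬ n₀ ≤ n)).card :=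
        (Finset.card_filter_add_card_filter_not _).symm
      have e3 : (F.filter (fun n => ¬ n₀ ≤ n)).card ≤ n₀ := by
        have e3 : F.filter (fun n => ¬ n₀ ≤ n) ⊆ range n₀ := by
          intro n hn
          obtain ⟨h4, h5⟩ := mem_filter.1 hn
          rw [mem_range]
          omega
        refine (Finset.card_le_card e3).trans ?_
        rw [card_range]
      have e4 : ((F.filter (fun n => ¬ n₀ ≤ n)).card : ℝ) ≤ n₀ := by exact_mod_cast e3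
      have e5 : (m : ℝ) ≤ n₀ := by exact_mod_cast hne.le
      rw [e1]
      push_cast
      calc (m : ℝ) * ((F.filter (fun n => n₀ ≤ n)).card + (F.filter (fun n => ¬ n₀ ≤ n)).card)
          = m * (F.filter (fun n => n₀ ≤ n)).card + m * (F.filter (fun n => ¬ n₀ ≤ n)).card := by
            ring
        _ ≤ N * Real.log N ^ C₂ + n₀ * n₀ := by
            apply add_le_add e2
            exact mul_le_mul e5 e4 (Nat.cast_nonneg _) hn0
        _ ≤ N * Real.log N ^ C₂ + N := by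
            have e6 : (n₀ : ℝ) * n₀ = (n₀ : ℝ) ^ 2 := by ring
            have e7 : (0 : ℝ) ≤ (n₀ : ℝ) ^ 3 := by positivity
            linarith
    · have e3 : F.filter (fun n => n₀ ≤ n) = F := by
        apply Finset.filter_true_of_mem
        intro n hn
        obtain ⟨_, g3⟩ := hFm n hn
        obtain ⟨g4, g5⟩ := adm_le g3.1
        omega
      rw [e3] at e2
      linarith

end Pool.Agent.TSX
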