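import Mathlib
import Pool.Agent.TSX.Main

set_option autoImplicit false

/-!
# TSX / Pair: the tools for an arbitrary set of numbers `a` in place of the primes `p`
-/

namespace Pool.Agent.TSX

open Finset Filter

open scoped Classical in
/-- The primes `q` such that `q = ⌊(n - a) / m⌋` for an `a < n` with the property `P`, such that
`p_q - q + h` and `q ^ 2 - k` are prime, `q ^ 2 - 2` has at most `R` prime factors and `p_q - q + 1` has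
at most `8 log log n` prime factors, counted with multiplicity (`p_q` is `Nat.nth Nat.Prime (q - 1)`). -/
noncomputable def QuadP (P : ℕ → Prop) (R m n h k : ℕ) : Finset ℕ :=
  (range n).filter (fun q => q.Prime ∧ (∃ a : ℕ, P a ∧ a < n ∧ (n - a) / m = q) ∧
    (Nat.nth Nat.Prime (q - 1) - q + h).Prime ∧ (q ^ 2 - k).Prime ∧
    ArithmeticFunction.cardFactors (q ^ 2 - 2) ≤ R ∧
    (ArithmeticFunction.cardFactors (Nat.nth Nat.Prime (q - 1) - q + 1) : ℝ) ≤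
      8 * Real.log (Real.log n))

open scoped Classical in
/-- as `Fine`, for `QuadP` -/
def FineP (P : ℕ → Prop) (R : ℕ) (c ε : ℝ) (e m n : ℕ) : Prop := ∀ M₁ H₁ M₂ H₂ : ℕ,
  ((n / m : ℕ) : ℝ) ^ (1 / 4 + ε) ≤ H₁ → (M₁ : ℝ) + H₁ ≤ ((n / m : ℕ) : ℝ) ^ (1 - ε) →
  ((n / m : ℕ) : ℝ) ≤ H₂ → (M₂ : ℝ) + H₂ ≤ ((n / m : ℕ) : ℝ) ^ (2 - ε) →
  c * H₁ / Real.log (Real.log (Real.log ((n / m : ℕ) : ℝ))) ≤
    (((Ioc M₁ (M₁ + H₁)).filter (fun h =>
      c * H₂ / Real.log (Real.log (Real.log ((n / m : ℕ) : ℝ))) ≤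
        (((Ioc M₂ (M₂ + H₂)).filter (fun k =>
          c * ((n / m : ℕ) : ℝ) / Real.log n ^ e ≤
            ((QuadP P R m n h k).card : ℝ))).card : ℝ))).card : ℝ)

theorem fineP_prime {c ε : ℝ} {e m n : ℕ} : FineP Nat.Prime 5 c ε e m n ↔ Fine c ε e m n := Iff.rfl

/-- **The tool** for a set `S` of numbers `a < n` with the property `P`. -/
theorem toolP (hGap : Pool.Agent.SI.St_Gap) (e : ℕ) (ε : ℝ) (hε : 0 < ε) (a₀ : ℝ) (ha : 0 < a₀) :
    ∃ c : ℝ, 0 < c ∧ ∃ n₀ : ℕ, ∀ n : ℕ, n₀ ≤ n → ∀ m : ℕ, 1 ≤ m → (m : ℝ) ≤ (n : ℝ) ^ (1 - ε) →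
      ∀ (P : ℕ → Prop) (R : ℕ) (S : Finset ℕ), (∀ a ∈ S, a < n ∧ P a ∧ 1 ≤ a ∧ ((n - a) / m).Prime ∧
        ArithmeticFunction.cardFactors (((n - a) / m) ^ 2 - 2) ≤ R ∧
        (ArithmeticFunction.cardFactors
          (Nat.nth Nat.Prime ((n - a) / m - 1) - (n - a) / m + 1) : ℝ) ≤
          8 * Real.log (Real.log n)) →
      a₀ * n / Real.log n ^ e ≤ (S.card : ℝ) → FineP P R c ε (e + 2) m n := by
  classical
  obtain ⟨c, hc, n₀, h⟩ := nest (tool_pq hGap ε hε) (tool_sq hGap ε hε) ε hε e a₀ ha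
  refine ⟨c, hc, n₀, fun n hn m hm hmn P R S hmem hS M₁ H₁ M₂ H₂ hw1 hw2 hw3 hw4 => ?_⟩
  obtain ⟨K, hK⟩ : ∃ K : Finset ℕ, K = S.image (fun p => (n - p) / m) := ⟨_, rfl⟩
  have hKm : ∀ q ∈ K, q.Prime ∧ (∃ a : ℕ, P a ∧ a < n ∧ (n - a) / m = q) ∧
      (ArithmeticFunction.cardFactors (q ^ 2 - 2) ≤ R ∧
        (ArithmeticFunction.cardFactors (Nat.nth Nat.Prime (q - 1) - q + 1) : ℝ) ≤
          8 * Real.log (Real.log n)) ∧ q ≤ n / m ∧ q < n := by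
    intro q hq
    rw [hK] at hq
    obtain ⟨a, ha', rfl⟩ := mem_image.1 hq
    obtain ⟨h1, h2, h2', h3, h4⟩ := hmem a ha'
    refine ⟨h3, ⟨a, h2, h1, rfl⟩, h4, Nat.div_le_div_right (Nat.sub_le _ _), ?_⟩
    have h5 : (n - a) / m ≤ n - a := Nat.div_le_self _ _
    show (n - a) / m < n
    omega
  have hKc : a₀ * n / Real.log n ^ e ≤ m * K.card := by
    refine hS.trans ?_
    have h1 := card_fib m n hm S (fun p hp => (hmem p hp).1)
    rw [← hK] at h1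
    exact_mod_cast h1
  have h1 := h n hn m hm hmn K (fun q hq => ⟨(hKm q hq).1.two_le, (hKm q hq).2.2.2.1⟩) hKc
    M₁ H₁ M₂ H₂ ⟨hw1, hw2⟩ ⟨hw3, hw4⟩
  refine h1.trans ?_
  norm_cast
  apply Finset.card_le_card
  intro x hx
  simp only [Finset.mem_filter] at hx ⊢
  refine ⟨hx.1, hx.2.trans ?_⟩
  norm_cast
  apply Finset.card_le_card
  intro y hy
  simp only [Finset.mem_filter] at hy ⊢
  refine ⟨hy.1, hy.2.trans ?_⟩
  norm_cast
  apply Finset.card_le_card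
  intro q hq
  simp only [Finset.mem_filter] at hq
  obtain ⟨hqK, hq1, hq2⟩ := hq
  obtain ⟨g1, g2, ⟨g3, g4⟩, g5, g6⟩ := hKm q hqK
  simp only [QuadP, Finset.mem_filter, mem_range]
  exact ⟨g6, g1, g2, hq1, hq2, g3, g4⟩

open Classical in
theorem fineP_mono {P : ℕ → Prop} {R : ℕ} {c c' ε : ℝ} {e m n : ℕ} (h : c' ≤ c) (hn : 1 ≤ n)
    (hL : 0 ≤ Real.log (Real.log (Real.log ((n / m : ℕ) : ℝ)))) (hF : FineP P R c ε e m n) :
    FineP P R c' ε e m n := by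
  intro M₁ H₁ M₂ H₂ hw1 hw2 hw3 hw4
  have hln : 0 ≤ Real.log (n : ℝ) := Real.log_nonneg (by exact_mod_cast hn)
  refine le_trans ?_ ((hF M₁ H₁ M₂ H₂ hw1 hw2 hw3 hw4).trans ?_)
  · apply div_le_div_of_nonneg_right _ hL
    exact mul_le_mul_of_nonneg_right h (Nat.cast_nonneg _)
  · norm_cast
    apply Finset.card_le_card
    intro x hx
    simp only [Finset.mem_filter] at hx ⊢
    refine ⟨hx.1, le_trans ?_ (hx.2.trans ?_)⟩
    · apply div_le_div_of_nonneg_right _ hL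
      exact mul_le_mul_of_nonneg_right h (Nat.cast_nonneg _)
    · norm_cast
      apply Finset.card_le_card
      intro y hy
      simp only [Finset.mem_filter] at hy ⊢
      refine ⟨hy.1, le_trans ?_ hy.2⟩
      apply div_le_div_of_nonneg_right _ (by positivity)
      exact mul_le_mul_of_nonneg_right h (Nat.cast_nonneg _)

/-- **The tool**, for all small constants. -/
theorem toolP2 (hGap : Pool.Agent.SI.St_Gap) (e : ℕ) (ε : ℝ) (hε : 0 < ε) (a₀ : ℝ) (ha : 0 < a₀) :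
    ∃ c₁ : ℝ, 0 < c₁ ∧ ∃ n₀ : ℕ, ∀ c : ℝ, c ≤ c₁ → ∀ n : ℕ, n₀ ≤ n → ∀ m : ℕ, 1 ≤ m →
      (m : ℝ) ≤ (n : ℝ) ^ (1 - ε) →
      ∀ (P : ℕ → Prop) (R : ℕ) (S : Finset ℕ), (∀ a ∈ S, a < n ∧ P a ∧ 1 ≤ a ∧ ((n - a) / m).Prime ∧
        ArithmeticFunction.cardFactors (((n - a) / m) ^ 2 - 2) ≤ R ∧
        (ArithmeticFunction.cardFactors
          (Nat.nth Nat.Prime ((n - a) / m - 1) - (n - a) / m + 1) : ℝ) ≤
          8 * Real.log (Real.log n)) →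
      a₀ * n / Real.log n ^ e ≤ (S.card : ℝ) → FineP P R c ε (e + 2) m n := by
  obtain ⟨c₁, hc₁, n₀, h⟩ := toolP hGap e ε hε a₀ ha
  obtain ⟨X₃, hX₃⟩ := eventually_atTop.1 (Pool.Agent.TSH.tendsto_L3.eventually_ge_atTop 1)
  obtain ⟨n₁, hn₁⟩ := scale ε hε X₃
  refine ⟨c₁, hc₁, max (max n₀ n₁) 1, fun c hc n hn m hm hmn P R S hmem hS => ?_⟩
  have h1 : n₀ ≤ n := (le_max_left _ _).trans ((le_max_left _ _).trans hn)
  have h2 : n₁ ≤ n := (le_max_right _ _).trans ((le_max_left _ _).trans hn)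
  have h3 : 1 ≤ n := (le_max_right _ _).trans hn
  have hL3 : 1 ≤ Real.log (Real.log (Real.log ((n / m : ℕ) : ℝ))) :=
    hX₃ _ (hn₁ n h2 m hm hmn).1
  exact fineP_mono hc h3 (by linarith) (h n h1 m hm hmn P R S hmem hS)

end Pool.Agent.TSX
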