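import Mathlib
import Pool.Agent.TSX.Pair
import Pool.Agent.EVN.Asm2
import Pool.Agent.E2P.Asm
import Pool.Agent.CAE.RedM
import Pool.Agent.CAE.V2
import Pool.Agent.CAE.Om8
import Pool.Agent.RVC.Asm

set_option autoImplicit false

/-!
# TSX / Pair2: every large `n`, every admissible `m ≤ n ^ (1 - ε)`

The prime `p` is replaced by a prime or a product of two primes.
-/

namespace Pool.Agent.TSX

open Finset Filter

/-- `a` is a prime, or the product of a prime `≤ B` and a prime. -/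
def PB (B : ℝ) (a : ℕ) : Prop :=
  a.Prime ∨ ∃ p₁ p₂ : ℕ, p₁.Prime ∧ p₂.Prime ∧ (p₁ : ℝ) ≤ B ∧ a = p₁ * p₂

/-- `q` is prime, `q ^ 2 - 2` has at most `R` and `p_q - q + 1` at most `8 log log n` prime factors -/
def GoodR (R n q : ℕ) : Prop :=
  q.Prime ∧ ArithmeticFunction.cardFactors (q ^ 2 - 2) ≤ R ∧
    (ArithmeticFunction.cardFactors (Nat.nth Nat.Prime (q - 1) - q + 1) : ℝ) ≤
      8 * Real.log (Real.log n)

open scoped Classical in
/-- the `a < n` with `PB B a` and `q = ⌊(n - a) / m⌋` good -/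
noncomputable def SolB (R : ℕ) (B : ℝ) (m n : ℕ) : Finset ℕ :=
  (range n).filter (fun a => PB B a ∧ GoodR R n ((n - a) / m))

theorem pair_good_iff (n q : ℕ) : GoodR 5 n q ↔ q.Prime ∧ Pool.Agent.EVN.Phi n q := by
  rw [GoodR, Pool.Agent.EVN.Phi, Nat.IsAtMostAlmostPrime]
  constructor
  · rintro ⟨h3, h4, h5⟩
    refine ⟨h3, ⟨?_, h4⟩, h5⟩
    have h5 := h3.two_le
    have h6 : 2 ^ 2 ≤ q ^ 2 := Nat.pow_le_pow_left h5 2
    omega
  · rintro ⟨h3, ⟨_, h4⟩, h5⟩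
    exact ⟨h3, h4, h5⟩

theorem pair_pb_mono {B B' : ℝ} (h : B ≤ B') {a : ℕ} (ha : PB B a) : PB B' a := by
  rcases ha with ha | ⟨p₁, p₂, h1, h2, h3, h4⟩
  · exact Or.inl ha
  · exact Or.inr ⟨p₁, p₂, h1, h2, h3.trans h, h4⟩

theorem pair_pb_pos {B : ℝ} {a : ℕ} (ha : PB B a) : 1 ≤ a := by
  rcases ha with ha | ⟨p₁, p₂, h1, h2, h3, h4⟩
  · exact ha.one_lt.le
  · rw [h4]
    exact Nat.mul_pos h1.pos h2.pos

theorem pair_solB_sub {B B' : ℝ} (h : B ≤ B') (m n : ℕ) :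
    Pool.Agent.E2P.SolE Pool.Agent.EVN.Phi B m n ⊆ SolB 5 B' m n := by
  classical
  intro a ha
  rw [Pool.Agent.E2P.SolE, mem_filter] at ha
  rw [SolB, mem_filter, pair_good_iff]
  exact ⟨ha.1, pair_pb_mono h ha.2.1, ha.2.2⟩

/-- a number with at most two prime factors is a prime or a product of two primes -/
theorem pair_pb_of_two {a : ℕ} (h2 : 2 ≤ a) (h : ArithmeticFunction.cardFactors a ≤ 2) {B : ℝ}
    (hB : (a : ℝ) ≤ B) : PB B a := by
  have hm : a.minFac.Prime := Nat.minFac_prime (by omega)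
  obtain ⟨b, hb⟩ := Nat.minFac_dvd a
  have ha0 : a ≠ 0 := by omega
  have hb0 : b ≠ 0 := by
    rintro rfl
    rw [mul_zero] at hb
    exact ha0 hb
  have hmle : a.minFac ≤ a := Nat.minFac_le (by omega)
  have hcard : ArithmeticFunction.cardFactors a = 1 + ArithmeticFunction.cardFactors b := by
    conv_lhs => rw [hb]
    rw [ArithmeticFunction.cardFactors_mul hm.ne_zero hb0,
      ArithmeticFunction.cardFactors_apply_prime hm]
  have hb1 : ArithmeticFunction.cardFactors b ≤ 1 := by omega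
  rcases Nat.eq_or_lt_of_le hb1 with h1 | h0
  · refine Or.inr ⟨a.minFac, b, hm, ArithmeticFunction.cardFactors_eq_one_iff_prime.1 h1, ?_, hb⟩
    refine le_trans ?_ hB
    exact_mod_cast hmle
  · have h3 : ArithmeticFunction.cardFactors b = 0 := by omega
    rw [ArithmeticFunction.cardFactors_eq_zero_iff_eq_zero_or_one] at h3
    rcases h3 with h3 | h3
    · exact absurd h3 hb0
    · left
      rw [h3, mul_one] at hb
      rw [hb]
      exact hm

/-- the part on all small `m` -/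
theorem pair_partR : ∃ (R : ℕ) (c : ℝ), 5 ≤ R ∧ 0 < c ∧ ∀ C : ℕ, ∃ n₀ : ℕ, ∀ n ≥ n₀, ∀ m : ℕ,
    Adm m n → (m : ℝ) < Real.log n ^ C →
      c * (n / Real.log n ^ 3) ≤ ((SolB R n m n).card : ℝ) := by
  classical
  obtain ⟨R, c, hc, h⟩ := RVC.all_rev (RVC.rc3 CAE.thm_V2A CAE.thm_RedM) CAE.thm_Om8
  refine ⟨R + 5, c, by omega, hc, fun C => ?_⟩
  obtain ⟨n₀, h⟩ := eventually_atTop.1 (h C)
  refine ⟨n₀, fun n hn m hm hmA => ?_⟩
  refine (h n hn m hm hmA.le (SolB (R + 5) n m n) ?_).le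
  intro a ha2 han haO hq hR hΩ
  rw [SolB, mem_filter, mem_range]
  exact ⟨han, pair_pb_of_two ha2 haO (by exact_mod_cast han.le), hq, hR.trans (by omega), hΩ⟩

/-- the part on all `m ≥ (log n) ^ C` -/
theorem pair_partE : ∃ C n₀ : ℕ, ∀ C' ≥ C, ∀ n ≥ n₀, ∀ m : ℕ, Real.log n ^ C' ≤ m →
    2 * m + 1 < n → 12 * m ≤ n →
      (n : ℝ) / Real.log n ^ 8 ≤ ((SolB 5 (Real.log n ^ C') m n).card : ℝ) := by
  obtain ⟨C, n₁, h⟩ := Pool.Agent.E2P.finalE
  refine ⟨C, max 3 n₁, fun C' hC' n hn m hm hmn h12 => ?_⟩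
  have hn3 : 3 ≤ n := (le_max_left _ _).trans hn
  have hL : 1 ≤ Real.log n := by
    rw [Real.le_log_iff_exp_le (by positivity)]
    have h3 : (3 : ℝ) ≤ n := by exact_mod_cast hn3
    linarith [Real.exp_one_lt_d9]
  have hpow : Real.log n ^ C ≤ Real.log n ^ C' := pow_le_pow_right₀ hL hC'
  obtain ⟨_, h2⟩ := h n ((le_max_right _ _).trans hn) m (hpow.trans hm) hmn
  refine (h2 h12).trans ?_
  exact_mod_cast card_le_card (pair_solB_sub hpow m n)

/-- every large `n`, every admissible `m ≤ n ^ (1 - ε)` -/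
theorem every_pair (hGap : Pool.Agent.SI.St_Gap) : ∃ R C : ℕ, 5 ≤ R ∧ ∀ ε : ℝ, 0 < ε →
    ∃ c₁ : ℝ, 0 < c₁ ∧ ∀ C' ≥ C, ∃ n₀ : ℕ, ∀ c : ℝ, c ≤ c₁ → ∀ n ≥ n₀, ∀ m : ℕ, Adm m n →
      (m : ℝ) ≤ (n : ℝ) ^ (1 - ε) →
      ((m : ℝ) < Real.log n ^ C' → FineP (PB n) R c ε 5 m n) ∧
      (Real.log n ^ C' ≤ m → FineP (PB (Real.log n ^ C')) 5 c ε 10 m n) := by
  obtain ⟨R, a, hR, ha, h1⟩ := pair_partR
  obtain ⟨C, n₂, h2⟩ := pair_partE
  refine ⟨R, C, hR, fun ε hε => ?_⟩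
  obtain ⟨c₃, hc₃, n₃, h3⟩ := toolP2 hGap 3 ε hε a ha
  obtain ⟨c₄, hc₄, n₄, h4⟩ := toolP2 hGap 8 ε hε 1 one_pos
  have hT1 : Tendsto (fun n : ℕ => (n : ℝ) ^ ε) atTop atTop :=
    (tendsto_rpow_atTop hε).comp tendsto_natCast_atTop_atTop
  obtain ⟨n₅, hn₅⟩ := eventually_atTop.1
    ((hT1.eventually_ge_atTop 12).and (eventually_ge_atTop 1))
  refine ⟨min c₃ c₄, lt_min hc₃ hc₄, fun C' hC' => ?_⟩
  obtain ⟨n₁, h1⟩ := h1 C'
  refine ⟨max (max n₁ n₂) (max (max n₃ n₄) n₅), fun c hc n hn m hm hmn => ?_⟩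
  have hn1 : n₁ ≤ n := (le_max_left _ _).trans ((le_max_left _ _).trans hn)
  have hn2 : n₂ ≤ n := (le_max_right _ _).trans ((le_max_left _ _).trans hn)
  have hn3 : n₃ ≤ n :=
    (le_max_left _ _).trans ((le_max_left _ _).trans ((le_max_right _ _).trans hn))
  have hn4 : n₄ ≤ n :=
    (le_max_right _ _).trans ((le_max_left _ _).trans ((le_max_right _ _).trans hn))
  have hn5 : n₅ ≤ n := (le_max_right _ _).trans ((le_max_right _ _).trans hn)
  obtain ⟨h12, hn1'⟩ := hn₅ n hn5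
  have hn1'' : (1 : ℝ) ≤ n := by exact_mod_cast hn1'
  have hn0 : (0 : ℝ) < n := by linarith
  have hmem : ∀ (R : ℕ) (B : ℝ), ∀ b ∈ SolB R B m n, b < n ∧ PB B b ∧ 1 ≤ b ∧
      ((n - b) / m).Prime ∧ ArithmeticFunction.cardFactors (((n - b) / m) ^ 2 - 2) ≤ R ∧
        (ArithmeticFunction.cardFactors
          (Nat.nth Nat.Prime ((n - b) / m - 1) - (n - b) / m + 1) : ℝ) ≤
          8 * Real.log (Real.log n) := by
    classical
    intro R B b hb
    rw [SolB, mem_filter, mem_range] at hb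
    exact ⟨hb.1, hb.2.1, pair_pb_pos hb.2.1, hb.2.2⟩
  constructor
  · intro hmC
    refine h3 c (hc.trans (min_le_left _ _)) n hn3 m hm.1 hmn (PB n) R (SolB R n m n)
      (hmem R n) ?_
    have h6 := h1 n hn1 m hm hmC
    rw [mul_div_assoc]
    exact h6
  · intro hmC
    refine h4 c (hc.trans (min_le_right _ _)) n hn4 m hm.1 hmn (PB (Real.log n ^ C')) 5
      (SolB 5 (Real.log n ^ C') m n) (hmem 5 _) ?_
    have h7 : 12 * m ≤ n := by
      have e1 : (12 : ℝ) * m ≤ n := by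
        calc (12 : ℝ) * m ≤ (n : ℝ) ^ ε * (n : ℝ) ^ (1 - ε) :=
              mul_le_mul h12 hmn (Nat.cast_nonneg _) (by positivity)
          _ = n := by
              rw [← Real.rpow_add hn0]
              have : (ε + (1 - ε) : ℝ) = 1 := by ring
              rw [this, Real.rpow_one]
      exact_mod_cast e1
    rw [one_mul]
    exact h2 C' hC' n hn2 m hmC hm.2.1 h7

end Pool.Agent.TSX
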