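import Mathlib

set_option autoImplicit false

/-!
# TSX / DefsC: MP_4011c3_nt, both questions with their constants replaced by shifts, `q` a prime or a
product of two primes

`X = ⌊n / m⌋`.
-/

namespace Pool.Agent.TSX

open Finset

open scoped Classical in
/-- The `q` that are primes or products of two primes, such that `q = ⌊(n - p) / m⌋` for a prime
`p < n`, such that `p_q - q + h` and `q ^ 2 - k` are prime, `q ^ 2 - 2` has at most `R` prime factors
and `p_q - q + 1` has at most `8 log log n` prime factors, counted with multiplicity (`p_q` is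
`Nat.nth Nat.Prime (q - 1)`). -/
noncomputable def QuadC (R m n h k : ℕ) : Finset ℕ :=
  (range n).filter (fun q => 2 ≤ q ∧ ArithmeticFunction.cardFactors q ≤ 2 ∧
    (∃ p : ℕ, p.Prime ∧ p < n ∧ (n - p) / m = q) ∧
    (Nat.nth Nat.Prime (q - 1) - q + h).Prime ∧ (q ^ 2 - k).Prime ∧
    ArithmeticFunction.cardFactors (q ^ 2 - 2) ≤ R ∧
    (ArithmeticFunction.cardFactors (Nat.nth Nat.Prime (q - 1) - q + 1) : ℝ) ≤
      8 * Real.log (Real.log n))

open scoped Classical in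
/-- In all windows `(M₁, M₁ + H₁]` with `X ^ (1 / 4 + ε) ≤ H₁`, `M₁ + H₁ ≤ X ^ (1 - ε)` and
`(M₂, M₂ + H₂]` with `X ≤ H₂`, `M₂ + H₂ ≤ X ^ (2 - ε)`, `X = ⌊n / m⌋`, at least
`c H₁ / log log log X` of the `h` are such that at least `c H₂ / log log log X` of the `k` are such
that `QuadC R m n h k` has at least `c X / (log n) ^ e` elements. -/
def FineC (c ε : ℝ) (R e m n : ℕ) : Prop := ∀ M₁ H₁ M₂ H₂ : ℕ,
  ((n / m : ℕ) : ℝ) ^ (1 / 4 + ε) ≤ H₁ → (M₁ : ℝ) + H₁ ≤ ((n / m : ℕ) : ℝ) ^ (1 - ε) →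
  ((n / m : ℕ) : ℝ) ≤ H₂ → (M₂ : ℝ) + H₂ ≤ ((n / m : ℕ) : ℝ) ^ (2 - ε) →
  c * H₁ / Real.log (Real.log (Real.log ((n / m : ℕ) : ℝ))) ≤
    (((Ioc M₁ (M₁ + H₁)).filter (fun h =>
      c * H₂ / Real.log (Real.log (Real.log ((n / m : ℕ) : ℝ))) ≤
        (((Ioc M₂ (M₂ + H₂)).filter (fun k =>
          c * ((n / m : ℕ) : ℝ) / Real.log n ^ e ≤
            ((QuadC R m n h k).card : ℝ))).card : ℝ))).card : ℝ)

end Pool.Agent.TSX
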