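import Mathlib
import Pool.Agent.TSX.DefsC
import Pool.Agent.TSX.Main

set_option autoImplicit false

/-!
# TSX / Chen: the tool for `q` a prime or a product of two primes
-/

namespace Pool.Agent.TSX

open Finset Filter

/-- **The tool.** -/
theorem toolC (hGap : Pool.Agent.SI.St_Gap) (e : ℕ) (ε : ℝ) (hε : 0 < ε) (a : ℝ) (ha : 0 < a) :
    ∃ c : ℝ, 0 < c ∧ ∃ n₀ : ℕ, ∀ n : ℕ, n₀ ≤ n → ∀ m : ℕ, 1 ≤ m → (m : ℝ) ≤ (n : ℝ) ^ (1 - ε) →
      ∀ (R : ℕ) (S : Finset ℕ), (∀ p ∈ S, p.Prime ∧ p < n ∧ 2 ≤ (n - p) / m ∧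
        ArithmeticFunction.cardFactors ((n - p) / m) ≤ 2 ∧
        ArithmeticFunction.cardFactors (((n - p) / m) ^ 2 - 2) ≤ R ∧
        (ArithmeticFunction.cardFactors
          (Nat.nth Nat.Prime ((n - p) / m - 1) - (n - p) / m + 1) : ℝ) ≤
            8 * Real.log (Real.log n)) →
      a * n / Real.log n ^ e ≤ (S.card : ℝ) → FineC c ε R (e + 2) m n := by
  classical
  obtain ⟨c, hc, n₀, h⟩ := nest (tool_pq hGap ε hε) (tool_sq hGap ε hε) ε hε e a ha
  refine ⟨c, hc, n₀, fun n hn m hm hmn R S hS hSc M₁ H₁ M₂ H₂ hw1 hw2 hw3 hw4 => ?_⟩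
  obtain ⟨K, hK⟩ : ∃ K : Finset ℕ, K = S.image (fun p => (n - p) / m) := ⟨_, rfl⟩
  have hKm : ∀ q ∈ K, (∃ p : ℕ, p.Prime ∧ p < n ∧ (n - p) / m = q) ∧ 2 ≤ q ∧
      ArithmeticFunction.cardFactors q ≤ 2 ∧ ArithmeticFunction.cardFactors (q ^ 2 - 2) ≤ R ∧
      (ArithmeticFunction.cardFactors (Nat.nth Nat.Prime (q - 1) - q + 1) : ℝ) ≤
        8 * Real.log (Real.log n) ∧ q ≤ n / m := by
    intro q hq
    rw [hK] at hq
    obtain ⟨p, hp, rfl⟩ := mem_image.1 hq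
    obtain ⟨h1, h2, h3, h4, h5, h6⟩ := hS p hp
    exact ⟨⟨p, h1, h2, rfl⟩, h3, h4, h5, h6, Nat.div_le_div_right (Nat.sub_le _ _)⟩
  have hKc : a * n / Real.log n ^ e ≤ m * K.card := by
    refine hSc.trans ?_
    have h1 := card_fib m n hm S (fun p hp => (hS p hp).2.1)
    rw [← hK] at h1
    exact_mod_cast h1
  have h1 := h n hn m hm hmn K (fun q hq => ⟨(hKm q hq).2.1, (hKm q hq).2.2.2.2.2⟩) hKc
    M₁ H₁ M₂ H₂ ⟨hw1, hw2⟩ ⟨hw3, hw4⟩
  refine h1.trans ?_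
  norm_cast
  apply Finset.card_le_card
  intro x hx
  simp only [Finset.mem_filter] at hx ⊢
  refine ⟨hx.1, hx.2.trans ?_⟩
  norm_cast
  apply Finset.card_le_card
  intro y hy
  simp only [Finset.mem_filter] at hy ⊢
  refine ⟨hy.1, hy.2.trans ?_⟩
  norm_cast
  apply Finset.card_le_card
  intro q hq
  simp only [Finset.mem_filter] at hq
  obtain ⟨hqK, hq1, hq2⟩ := hq
  obtain ⟨⟨p, g2, g3, g4⟩, g1, g5, g6, g7, g8⟩ := hKm q hqK
  simp only [QuadC, Finset.mem_filter, mem_range]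
  refine ⟨?_, g1, g5, ⟨p, g2, g3, g4⟩, hq1, hq2, g6, g7⟩
  have h2 := g2.two_le
  have h3 : (n - p) / m ≤ n - p := Nat.div_le_self _ _
  omega

open Classical in
theorem fineC_mono {c c₀ ε : ℝ} {R e m n : ℕ} (hc : 0 ≤ c) (h : c ≤ c₀) (hF : FineC c₀ ε R e m n) :
    FineC c ε R e m n := by
  intro M₁ H₁ M₂ H₂ w1 w2 w3 w4
  have hF := hF M₁ H₁ M₂ H₂ w1 w2 w3 w4
  have hln : 0 ≤ Real.log (n : ℝ) := Real.log_natCast_nonneg n
  rcases le_or_gt (Real.log (Real.log (Real.log ((n / m : ℕ) : ℝ)))) 0 with hL | hL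
  · exact (div_nonpos_of_nonneg_of_nonpos (mul_nonneg hc (Nat.cast_nonneg _)) hL).trans
      (Nat.cast_nonneg _)
  · refine le_trans ?_ (hF.trans ?_)
    · apply div_le_div_of_nonneg_right _ hL.le
      exact mul_le_mul_of_nonneg_right h (Nat.cast_nonneg _)
    · norm_cast
      apply Finset.card_le_card
      intro x hx
      simp only [Finset.mem_filter] at hx ⊢
      refine ⟨hx.1, le_trans ?_ (hx.2.trans ?_)⟩
      · apply div_le_div_of_nonneg_right _ hL.le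
        exact mul_le_mul_of_nonneg_right h (Nat.cast_nonneg _)
      · norm_cast
        apply Finset.card_le_card
        intro y hy
        simp only [Finset.mem_filter] at hy ⊢
        refine ⟨hy.1, le_trans ?_ hy.2⟩
        apply div_le_div_of_nonneg_right _ (by positivity)
        exact mul_le_mul_of_nonneg_right h (Nat.cast_nonneg _)

end Pool.Agent.TSX
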