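import Mathlib
import Pool.Agent.TSX.Defs
import Pool.Agent.TSX.Chen
import Pool.Agent.TSX.Every2
import Pool.Agent.GBQ.Defs

set_option autoImplicit false

/-!
# TSX / ChenB: every pair, `q` a prime or a product of two primes
-/

namespace Pool.Agent.TSX

open Finset Filter
open Pool.Agent.EVN (SolP Phi)
open Pool.Agent.GBQ (Admissible)

open scoped Classical in
/-- the primes `p < n` with `q = ⌊(n - p) / m⌋` a prime or a product of two primes etc. -/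
noncomputable def SolC (R m n : ℕ) : Finset ℕ :=
  (range n).filter (fun p => p.Prime ∧ 2 ≤ (n - p) / m ∧
    ArithmeticFunction.cardFactors ((n - p) / m) ≤ 2 ∧
    ArithmeticFunction.cardFactors (((n - p) / m) ^ 2 - 2) ≤ R ∧
    (ArithmeticFunction.cardFactors
      (Nat.nth Nat.Prime ((n - p) / m - 1) - (n - p) / m + 1) : ℝ) ≤
        8 * Real.log (Real.log n))

theorem sub_solC {R m n : ℕ} (hR : 5 ≤ R) : SolP Phi m n ⊆ SolC R m n := by
  classical
  intro p hp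
  rw [SolP, Finset.mem_filter] at hp
  obtain ⟨h1, h2, h3, h4, h5⟩ := hp
  rw [SolC, mem_filter]
  refine ⟨h1, h2, h3.two_le, ?_, h4.2.trans hR, h5⟩
  rw [ArithmeticFunction.cardFactors_apply_prime h3]
  omega

theorem solC_mem {R m n p : ℕ} (hp : p ∈ SolC R m n) : p.Prime ∧ p < n ∧ 2 ≤ (n - p) / m ∧
    ArithmeticFunction.cardFactors ((n - p) / m) ≤ 2 ∧
    ArithmeticFunction.cardFactors (((n - p) / m) ^ 2 - 2) ≤ R ∧
    (ArithmeticFunction.cardFactors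
      (Nat.nth Nat.Prime ((n - p) / m - 1) - (n - p) / m + 1) : ℝ) ≤
        8 * Real.log (Real.log n) := by
  classical
  rw [SolC, mem_filter, mem_range] at hp
  exact ⟨hp.2.1, hp.1, hp.2.2.1, hp.2.2.2.1, hp.2.2.2.2.1, hp.2.2.2.2.2⟩

theorem chen_all (hGap : Pool.Agent.SI.St_Gap)
    (h : ∃ (R : ℕ) (c ρ : ℝ), 0 < c ∧ 0 < ρ ∧
      ∀ᶠ n : ℕ in atTop, ∀ m : ℕ, Admissible m n → (m : ℝ) ≤ (n : ℝ) ^ (1 / 3 + ρ) →
      ∀ G : Finset ℕ, (∀ p : ℕ, p.Prime → p < n → 2 ≤ (n - p) / m →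
        ArithmeticFunction.cardFactors ((n - p) / m) ≤ 2 →
        ArithmeticFunction.cardFactors (((n - p) / m) ^ 2 - 2) ≤ R →
        (ArithmeticFunction.cardFactors
          (Nat.nth Nat.Prime ((n - p) / m - 1) - (n - p) / m + 1) : ℝ) ≤
            8 * Real.log (Real.log n) → p ∈ G) → c * (n / Real.log n ^ 3) < (G.card : ℝ))
    (ht : ∀ ε : ℝ, 0 < ε → ∃ n₀ : ℕ, ∀ n m : ℕ, n₀ ≤ n → (n : ℝ) ^ (1 / 4 + ε) ≤ m →
      2 * m + 1 < n → (SolP Phi m n).Nonempty ∧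
        (12 * m ≤ n → (n : ℝ) / Real.log n ^ 5 ≤ ((SolP Phi m n).card : ℝ))) :
    ∃ (R : ℕ) (ρ : ℝ), 0 < ρ ∧ ∀ ε : ℝ, 0 < ε → ∃ c : ℝ, 0 < c ∧
      {P : ℕ × ℕ | Adm P.1 P.2 ∧ (P.1 : ℝ) ≤ (P.2 : ℝ) ^ (1 - ε) ∧
        ¬ (FineC c ε R 7 P.1 P.2 ∧
          ((P.1 : ℝ) ≤ (P.2 : ℝ) ^ (1 / 3 + ρ) → FineC c ε R 5 P.1 P.2))}.Finite := by
  classical
  obtain ⟨R, a, ρ, ha, hρ, h⟩ := h
  refine ⟨R + 5, ρ, hρ, fun ε hε => ?_⟩
  obtain ⟨c₃, hc₃, n₃, h3⟩ := toolC hGap 3 ε hε a ha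
  obtain ⟨c₅, hc₅, n₅, h5⟩ := toolC hGap 5 ε hε 1 one_pos
  refine ⟨min c₃ c₅, lt_min hc₃ hc₅, ?_⟩
  obtain ⟨n₁, h⟩ := eventually_atTop.1 h
  obtain ⟨n₂, h4⟩ := ht (1 / 12) (by norm_num)
  have hlogT : Tendsto (fun X : ℕ => Real.log X) atTop atTop :=
    Real.tendsto_log_atTop.comp tendsto_natCast_atTop_atTop
  obtain ⟨n₄, h6⟩ := eventually_atTop.1 ((hlogT.eventually_ge_atTop (1 / a + 1)).and
    ((eventually_ge_atTop 2).and (twelve ε hε)))
  refine Set.Finite.subset ((Set.finite_Iio (n₁ + n₂ + n₃ + n₄ + n₅)).prod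
    (Set.finite_Iio (n₁ + n₂ + n₃ + n₄ + n₅))) ?_
  rintro ⟨m, n⟩ ⟨hadm, hmn, hno⟩
  simp only at hadm hmn hno
  by_contra hnot
  have hm0 := hadm.2.1
  have hn : n₁ + n₂ + n₃ + n₄ + n₅ ≤ n := by
    by_contra hlt
    exact hnot (Set.mem_prod.2 ⟨by simp only [Set.mem_Iio]; omega,
      by simp only [Set.mem_Iio]; omega⟩)
  obtain ⟨hL, hn2, h12⟩ := h6 n (by omega)
  have h12 := h12 m hmn
  have hn2r : (2 : ℝ) ≤ n := by exact_mod_cast hn2
  have hn0 : (0 : ℝ) < n := by linarith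
  have hL1 : 1 ≤ Real.log n := by
    have : 0 < 1 / a := by positivity
    linarith
  have hL0 : 0 < Real.log n := by linarith
  apply hno
  have hc0 : 0 ≤ min c₃ c₅ := (lt_min hc₃ hc₅).le
  rcases le_or_gt (m : ℝ) ((n : ℝ) ^ (1 / 3 + ρ)) with hmle | hmgt
  · have h7 := h n (by omega) m hadm hmle (SolC (R + 5) m n) (by
      intro p hp hpn hq h2 hR hΩ
      rw [SolC, mem_filter, mem_range]
      exact ⟨hpn, hp, hq, h2, hR.trans (by omega), hΩ⟩)
    have h8 : a * n / Real.log n ^ 3 ≤ ((SolC (R + 5) m n).card : ℝ) := by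
      rw [mul_div_assoc]
      exact h7.le
    have h9 : 1 * (n : ℝ) / Real.log n ^ 5 ≤ ((SolC (R + 5) m n).card : ℝ) := by
      refine le_trans ?_ h8
      rw [one_mul, div_le_div_iff₀ (pow_pos hL0 5) (pow_pos hL0 3)]
      have e1 : 1 ≤ a * Real.log n ^ 2 := by
        have e2 : 1 / a * a = 1 := by
          field_simp
        have e3 : 1 / a ≤ Real.log n := by linarith
        have e4 := mul_le_mul_of_nonneg_right e3 ha.le
        rw [e2] at e4
        have e5 : Real.log n * a ≤ Real.log n * a * Real.log n :=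
          le_mul_of_one_le_right (mul_pos hL0 ha).le hL1
        calc (1 : ℝ) ≤ Real.log n * a * Real.log n := e4.trans e5
          _ = a * Real.log n ^ 2 := by ring
      have e2 : (0 : ℝ) ≤ n * Real.log n ^ 3 := by positivity
      calc (n : ℝ) * Real.log n ^ 3 = n * Real.log n ^ 3 * 1 := (mul_one _).symm
        _ ≤ n * Real.log n ^ 3 * (a * Real.log n ^ 2) := mul_le_mul_of_nonneg_left e1 e2
        _ = a * n * Real.log n ^ 5 := by ring
    refine ⟨fineC_mono hc0 (min_le_right _ _)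
      (h5 n (by omega) m hadm.1 hmn (R + 5) _ (fun p hp => solC_mem hp) h9), fun _ =>
      fineC_mono hc0 (min_le_left _ _)
        (h3 n (by omega) m hadm.1 hmn (R + 5) _ (fun p hp => solC_mem hp) h8)⟩
  · have hge : (n : ℝ) ^ ((1 / 4 : ℝ) + 1 / 12) ≤ m := by
      refine le_trans ?_ hmgt.le
      apply Real.rpow_le_rpow_of_exponent_le (by linarith)
      linarith
    obtain ⟨_, h7⟩ := h4 n m (by omega) hge hm0
    have h8 : 1 * (n : ℝ) / Real.log n ^ 5 ≤ ((SolC (R + 5) m n).card : ℝ) := by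
      rw [one_mul]
      refine (h7 h12).trans ?_
      exact_mod_cast card_le_card (sub_solC (by omega))
    refine ⟨fineC_mono hc0 (min_le_right _ _)
      (h5 n (by omega) m hadm.1 hmn (R + 5) _ (fun p hp => solC_mem hp) h8), fun hle => ?_⟩
    exact absurd hle (not_le.2 hmgt)

end Pool.Agent.TSX
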